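import Mathlib

/-!
3-AP-free blocks.
-/

open Finset

namespace N417.Chg

theorem exists_block (t : ℕ) : ∃ S : Finset ℕ, (∀ a ∈ S, 4 ^ t ≤ a ∧ 2 * a ≤ 3 * 4 ^ t) ∧
    S.card = rothNumberNat (4 ^ t / 2 + 1) ∧ ThreeAPFree (S : Set ℕ) := by
  obtain ⟨B, hB1, hB2, hB3⟩ := rothNumberNat_spec (4 ^ t / 2 + 1)
  refine ⟨B.map (addLeftEmbedding (4 ^ t)), ?_, ?_, ?_⟩
  · intro a ha
    rw [Finset.mem_map] at ha
    obtain ⟨b, hb, rfl⟩ := ha
    have := hB1 hb
    rw [mem_range] at this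
    simp only [addLeftEmbedding_apply]
    omega
  · rw [Finset.card_map, hB2]
  · intro a ha b hb c hc habc
    simp only [coe_map, addLeftEmbedding_apply, Set.mem_image, mem_coe] at ha hb hc
    obtain ⟨a', ha', rfl⟩ := ha
    obtain ⟨b', hb', rfl⟩ := hb
    obtain ⟨c', hc', rfl⟩ := hc
    have : a' + c' = b' + b' := by omega
    rw [hB3 ha' hb' hc' this]

/-- the chosen blocks -/
noncomputable def S (t : ℕ) : Finset ℕ := (exists_block t).choose

theorem S_mem {t a : ℕ} (h : a ∈ S t) : 4 ^ t ≤ a ∧ 2 * a ≤ 3 * 4 ^ t :=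
  (exists_block t).choose_spec.1 a h

theorem S_card (t : ℕ) : (S t).card = rothNumberNat (4 ^ t / 2 + 1) :=
  (exists_block t).choose_spec.2.1

theorem S_free (t : ℕ) : ThreeAPFree (S t : Set ℕ) := (exists_block t).choose_spec.2.2

theorem S_log {t a : ℕ} (h : a ∈ S t) : Nat.log 4 a = t := by
  obtain ⟨h1, h2⟩ := S_mem h
  have hpos : 0 < 4 ^ t := by positivity
  rw [Nat.log_eq_iff (Or.inr ⟨by norm_num, by omega⟩)]
  refine ⟨h1, ?_⟩
  rw [pow_succ]
  omega

/-- the union of the blocks -/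
def Sinf : Set ℕ := {a | a ∈ S (Nat.log 4 a)}

theorem mem_Sinf_of_mem {t a : ℕ} (h : a ∈ S t) : a ∈ Sinf := by
  show a ∈ S (Nat.log 4 a)
  rw [S_log h]
  exact h

theorem Sinf_pos {a : ℕ} (h : a ∈ Sinf) : 1 ≤ a := by
  have := (S_mem h).1
  have hpos : 0 < 4 ^ (Nat.log 4 a) := by positivity
  omega

/-- an element of `Sinf` which is at least `4^T/2` lies in a block `≥ T` -/
theorem le_log_of_half {a T : ℕ} (h : a ∈ Sinf) (hT : 4 ^ T ≤ 2 * a) : T ≤ Nat.log 4 a := by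
  by_contra hlt
  push Not at hlt
  have h2 := (S_mem h).2
  have h3 : 4 ^ (Nat.log 4 a + 1) ≤ 4 ^ T := Nat.pow_le_pow_right (by norm_num) hlt
  rw [pow_succ] at h3
  have hpos : 0 < 4 ^ (Nat.log 4 a) := by positivity
  omega

theorem Sinf_free : ThreeAPFree Sinf := by
  -- first the ordered version: no nontrivial a < b < c with a + c = 2 b
  have key : ∀ a b c : ℕ, a ∈ Sinf → b ∈ Sinf → c ∈ Sinf → a < c → a + c = b + b → False := by
    intro a b c ha hb hc hac habc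
    set T := Nat.log 4 c with hT
    have hc1 := S_mem (show c ∈ S T from hc)
    have hb1 : T ≤ Nat.log 4 b := le_log_of_half hb (by omega)
    have hb2 : Nat.log 4 b ≤ T := Nat.log_mono_right (by omega)
    have hbT : Nat.log 4 b = T := le_antisymm hb2 hb1
    have hb3 := S_mem (show b ∈ S (Nat.log 4 b) from hb)
    rw [hbT] at hb3
    have ha1 : T ≤ Nat.log 4 a := le_log_of_half ha (by omega)
    have ha2 : Nat.log 4 a ≤ T := Nat.log_mono_right (by omega)
    have haT : Nat.log 4 a = T := le_antisymm ha2 ha1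
    have haS : a ∈ S T := by rw [← haT]; exact ha
    have hbS : b ∈ S T := by rw [← hbT]; exact hb
    have := S_free T haS hbS (show c ∈ S T from hc) habc
    omega
  intro a ha b hb c hc habc
  rcases lt_trichotomy a c with h | h | h
  · exact (key a b c ha hb hc h habc).elim
  · omega
  · exact (key c b a hc hb ha h (by omega)).elim

/-- numbering of a block -/
noncomputable def rk (a : ℕ) : ℕ :=
  if h : a ∈ S (Nat.log 4 a) then ((S (Nat.log 4 a)).equivFin ⟨a, h⟩ : ℕ) else 0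

theorem rk_inj {a b : ℕ} (ha : a ∈ Sinf) (hb : b ∈ Sinf) (hlog : Nat.log 4 a = Nat.log 4 b)
    (h : rk a = rk b) : a = b := by
  have ha' : a ∈ S (Nat.log 4 a) := ha
  have hb' : b ∈ S (Nat.log 4 b) := hb
  unfold rk at h
  rw [dif_pos ha', dif_pos hb'] at h
  have key : ∀ t (ht : Nat.log 4 a = t) (hb'' : b ∈ S t) (ha'' : a ∈ S t),
      (((S t).equivFin ⟨a, ha''⟩ : Fin _) : ℕ) = ((S t).equivFin ⟨b, hb''⟩ : ℕ) → a = b := by
    intro t _ hb'' ha'' h
    have := (S t).equivFin.injective (Fin.ext h)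
    simpa using this
  have hb3 : b ∈ S (Nat.log 4 a) := by rw [hlog]; exact hb'
  refine key _ rfl hb3 ha' ?_
  rw [h]
  have key2 : ∀ s (hs : s = Nat.log 4 a) (h3 : b ∈ S s),
      (((S s).equivFin ⟨b, h3⟩ : Fin _) : ℕ) =
        ((S (Nat.log 4 a)).equivFin ⟨b, hb3⟩ : ℕ) := by
    rintro s rfl h3
    rfl
  exact key2 _ hlog.symm hb'

theorem exists_rk (t r : ℕ) (hr : r < (S t).card) : ∃ a ∈ S t, rk a = r := by
  obtain ⟨⟨a, ha⟩, hae⟩ := (S t).equivFin.surjective ⟨r, hr⟩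
  refine ⟨a, ha, ?_⟩
  have hlog := S_log ha
  unfold rk
  have h2 : a ∈ S (Nat.log 4 a) := by rw [hlog]; exact ha
  rw [dif_pos h2]
  have key : ∀ s (hs : s = t) (h3 : a ∈ S s), (((S s).equivFin ⟨a, h3⟩ : Fin _) : ℕ) = r := by
    rintro s rfl h3
    rw [hae]
  exact key _ hlog h2

end N417.Chg
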