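import Mathlib

/-!
A first-moment selection lemma on an infinite product of finite uniform spaces.
-/

open Finset MeasureTheory ProbabilityTheory
open scoped ENNReal

namespace N417.Chg

variable {ι C : Type}

/-- uniform measure on `Fin (n+1)` -/
noncomputable def um (n : ℕ) : Measure (Fin (n + 1)) := (PMF.uniformOfFintype (Fin (n + 1))).toMeasure

instance (n : ℕ) : IsProbabilityMeasure (um n) := by unfold um; infer_instance

theorem um_le (n s : ℕ) : um n {x | (x : ℕ) = s} ≤ ENNReal.ofReal (1 / ((n : ℝ) + 1)) := by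
  have h1 : ENNReal.ofReal (1 / ((n : ℝ) + 1)) = ((n : ℝ≥0∞) + 1)⁻¹ := by
    rw [one_div, ENNReal.ofReal_inv_of_pos (by positivity)]
    congr 1
    rw [ENNReal.ofReal_add (by positivity) (by norm_num)]
    simp
  rw [h1]
  by_cases hs : s < n + 1
  · have h2 : {x : Fin (n + 1) | (x : ℕ) = s} = {⟨s, hs⟩} := by
      ext x
      simp [Fin.ext_iff]
    rw [h2]
    unfold um
    rw [PMF.toMeasure_apply_singleton _ _ (MeasurableSet.of_discrete)]
    simp
  · have h2 : {x : Fin (n + 1) | (x : ℕ) = s} = ∅ := by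
      ext x
      have := x.2
      simp
      omega
    rw [h2]
    simp

/-- the event that the constraints in `e` hold -/
def Ev {Q : ι → ℕ} (e : Finset (ι × ℕ)) : Set (∀ i, Fin (Q i + 1)) :=
  {ω | ∀ p ∈ e, (ω p.1 : ℕ) = p.2}

theorem measurableSet_Ev {Q : ι → ℕ} (e : Finset (ι × ℕ)) :
    MeasurableSet (Ev (Q := Q) e) := by
  have : Ev (Q := Q) e = ⋂ p ∈ e, (fun ω : ∀ i, Fin (Q i + 1) => ω p.1) ⁻¹'
      {x | (x : ℕ) = p.2} := by
    ext ω
    simp [Ev]
  rw [this]
  refine Finset.measurableSet_biInter _ fun p _ => ?_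
  exact (measurable_pi_apply p.1) MeasurableSet.of_discrete

theorem Ev_le {Q : ι → ℕ} (e : Finset (ι × ℕ)) :
    Measure.infinitePi (fun i => um (Q i)) (Ev (Q := Q) e) ≤
      ENNReal.ofReal (∏ p ∈ e, (1 / ((Q p.1 : ℝ) + 1))) := by
  classical
  by_cases hinj : Set.InjOn Prod.fst (e : Set (ι × ℕ))
  · set t : (i : ι) → Set (Fin (Q i + 1)) := fun i => {x | ∀ p ∈ e, p.1 = i → (x : ℕ) = p.2}
      with ht
    have hsub : Ev (Q := Q) e ⊆ Set.pi (↑(e.image Prod.fst)) t := by
      intro ω hω i _ p hp hpi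
      have := hω p hp
      subst hpi
      exact this
    calc Measure.infinitePi (fun i => um (Q i)) (Ev (Q := Q) e)
        ≤ Measure.infinitePi (fun i => um (Q i)) (Set.pi (↑(e.image Prod.fst)) t) :=
          measure_mono hsub
      _ = ∏ i ∈ e.image Prod.fst, um (Q i) (t i) :=
          Measure.infinitePi_pi _ (fun i _ => MeasurableSet.of_discrete)
      _ = ∏ p ∈ e, um (Q p.1) (t p.1) := by
          rw [Finset.prod_image]
          intro a ha b hb hab
          exact hinj ha hb hab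
      _ ≤ ∏ p ∈ e, ENNReal.ofReal (1 / ((Q p.1 : ℝ) + 1)) := by
          refine Finset.prod_le_prod' fun p hp => ?_
          refine le_trans (measure_mono ?_) (um_le (Q p.1) p.2)
          intro x hx
          exact hx p hp rfl
      _ = ENNReal.ofReal (∏ p ∈ e, (1 / ((Q p.1 : ℝ) + 1))) := by
          rw [ENNReal.ofReal_prod_of_nonneg]
          intro i _
          positivity
  · have : Ev (Q := Q) e = ∅ := by
      rw [Set.eq_empty_iff_forall_notMem]
      intro ω hω
      apply hinj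
      rintro ⟨i, s⟩ ha ⟨j, s'⟩ hb hab
      simp only at hab
      subst hab
      have h1 := hω _ ha
      have h2 := hω _ hb
      simp only at h1 h2
      rw [← h1, ← h2]
    rw [this]
    simp

theorem selection (Q : ι → ℕ) (Conf : ℕ → Finset C) (ev : C → Finset (ι × ℕ))
    (thr δ : ℕ → ℝ) (hthr : ∀ T, 0 < thr T) (hδ0 : ∀ T, 0 ≤ δ T) (hδs : Summable δ)
    (hδ : ∑' T, δ T < 1)
    (hb : ∀ T, ∑ c ∈ Conf T, ∏ p ∈ ev c, (1 / ((Q p.1 : ℝ) + 1)) ≤ δ T * thr T) :
    ∃ ω : ∀ i, Fin (Q i + 1), ∀ T,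
      (Set.ncard {c | c ∈ Conf T ∧ ∀ p ∈ ev c, (ω p.1 : ℕ) = p.2} : ℝ) < thr T := by
  classical
  set P := Measure.infinitePi (fun i => um (Q i)) with hP
  set Bad : ℕ → Set (∀ i, Fin (Q i + 1)) := fun T =>
    {ω | thr T ≤ (Set.ncard {c | c ∈ Conf T ∧ ∀ p ∈ ev c, (ω p.1 : ℕ) = p.2} : ℝ)} with hBad
  have hcount : ∀ T (ω : ∀ i, Fin (Q i + 1)),
      ((Set.ncard {c | c ∈ Conf T ∧ ∀ p ∈ ev c, (ω p.1 : ℕ) = p.2} : ℕ) : ℝ≥0∞) =
        ∑ c ∈ Conf T, (Ev (Q := Q) (ev c)).indicator (fun _ => (1 : ℝ≥0∞)) ω := by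
    intro T ω
    have h1 : {c | c ∈ Conf T ∧ ∀ p ∈ ev c, (ω p.1 : ℕ) = p.2} =
        ↑((Conf T).filter (fun c => ω ∈ Ev (Q := Q) (ev c))) := by
      ext c
      simp [Ev]
    rw [h1, Set.ncard_coe_finset, Finset.card_filter]
    push_cast
    refine Finset.sum_congr rfl fun c _ => ?_
    by_cases h : ω ∈ Ev (Q := Q) (ev c) <;> simp [h]
  have hle : ∀ T, P (Bad T) ≤ ENNReal.ofReal (δ T) := by
    intro T
    set f : (∀ i, Fin (Q i + 1)) → ℝ≥0∞ := fun ω =>
      ∑ c ∈ Conf T, (Ev (Q := Q) (ev c)).indicator (fun _ => (1 : ℝ≥0∞)) ω with hf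
    have hfm : Measurable f := by
      refine Finset.measurable_fun_sum _ fun c _ => ?_
      exact measurable_const.indicator (measurableSet_Ev _)
    have hint : ∫⁻ ω, f ω ∂P ≤ ENNReal.ofReal (δ T * thr T) := by
      rw [hf, lintegral_finsetSum]
      · calc ∑ c ∈ Conf T, ∫⁻ ω, (Ev (Q := Q) (ev c)).indicator (fun _ => (1 : ℝ≥0∞)) ω ∂P
            = ∑ c ∈ Conf T, P (Ev (Q := Q) (ev c)) := by
              refine Finset.sum_congr rfl fun c _ => ?_
              rw [lintegral_indicator_const (measurableSet_Ev _), one_mul]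
          _ ≤ ∑ c ∈ Conf T, ENNReal.ofReal (∏ p ∈ ev c, (1 / ((Q p.1 : ℝ) + 1))) :=
              Finset.sum_le_sum fun c _ => Ev_le _
          _ = ENNReal.ofReal (∑ c ∈ Conf T, ∏ p ∈ ev c, (1 / ((Q p.1 : ℝ) + 1))) := by
              rw [ENNReal.ofReal_sum_of_nonneg]
              intro c _
              positivity
          _ ≤ _ := ENNReal.ofReal_le_ofReal (hb T)
      · intro c _
        exact measurable_const.indicator (measurableSet_Ev _)
    have hsub : Bad T ⊆ {ω | ENNReal.ofReal (thr T) ≤ f ω} := by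
      intro ω hω
      have h1 := hcount T ω
      have h2 : thr T ≤ (Set.ncard {c | c ∈ Conf T ∧ ∀ p ∈ ev c, (ω p.1 : ℕ) = p.2} : ℝ) := hω
      show ENNReal.ofReal (thr T) ≤ f ω
      rw [hf]
      simp only
      rw [← h1]
      calc ENNReal.ofReal (thr T) ≤ ENNReal.ofReal
            (Set.ncard {c | c ∈ Conf T ∧ ∀ p ∈ ev c, (ω p.1 : ℕ) = p.2} : ℝ) :=
            ENNReal.ofReal_le_ofReal h2
        _ = _ := ENNReal.ofReal_natCast _
    have hmar := mul_meas_ge_le_lintegral (μ := P) hfm (ENNReal.ofReal (thr T))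
    have h3 : ENNReal.ofReal (thr T) * P (Bad T) ≤ ENNReal.ofReal (thr T) * ENNReal.ofReal (δ T) := by
      calc ENNReal.ofReal (thr T) * P (Bad T)
          ≤ ENNReal.ofReal (thr T) * P {ω | ENNReal.ofReal (thr T) ≤ f ω} := by
            gcongr
        _ ≤ ∫⁻ ω, f ω ∂P := hmar
        _ ≤ ENNReal.ofReal (δ T * thr T) := hint
        _ = ENNReal.ofReal (thr T) * ENNReal.ofReal (δ T) := by
            rw [mul_comm (δ T), ENNReal.ofReal_mul (hthr T).le]
    rwa [ENNReal.mul_le_mul_iff_right (by simpa using hthr T) ENNReal.ofReal_ne_top] at h3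
  have hun : P (⋃ T, Bad T) < 1 := by
    calc P (⋃ T, Bad T) ≤ ∑' T, P (Bad T) := measure_iUnion_le _
      _ ≤ ∑' T, ENNReal.ofReal (δ T) := ENNReal.tsum_le_tsum hle
      _ = ENNReal.ofReal (∑' T, δ T) := (ENNReal.ofReal_tsum_of_nonneg hδ0 hδs).symm
      _ < 1 := by
          rw [← ENNReal.ofReal_one]
          exact (ENNReal.ofReal_lt_ofReal_iff (by norm_num)).mpr hδ
  have hne : (⋃ T, Bad T) ≠ Set.univ := by
    intro h
    rw [h, measure_univ] at hun
    exact lt_irrefl _ hun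
  obtain ⟨ω, hω⟩ := (Set.ne_univ_iff_exists_notMem _).mp hne
  refine ⟨ω, fun T => ?_⟩
  by_contra hcon
  push Not at hcon
  exact hω (Set.mem_iUnion.mpr ⟨T, hcon⟩)

end N417.Chg
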