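import Pool.Agent.N417.Chg.Sum
import Pool.Agent.N417.Chg.Select
import Pool.Agent.N417.Chg.Block

open Finset

namespace N417.Chg

variable {H g : ℕ}

/-- elements of a configuration: `y j` and `y j + d i` -/
def el (c : (Fin H → ℕ) × (Fin g → ℕ)) (p : Option (Fin H) × Fin g) : ℕ :=
  c.2 p.2 + (match p.1 with
    | none => 0
    | some i => c.1 i)

/-- the constraint (cell, value) of an element -/
noncomputable def kap (Q : ℕ → ℕ) (a : ℕ) : (ℕ × ℕ) × ℕ :=
  ((Nat.log 4 a, rk a / (Q (Nat.log 4 a) + 1)), rk a % (Q (Nat.log 4 a) + 1))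

theorem kap_inj (Q : ℕ → ℕ) {a b : ℕ} (ha : a ∈ Sinf) (hb : b ∈ Sinf) (h : kap Q a = kap Q b) :
    a = b := by
  unfold kap at h
  simp only [Prod.mk.injEq] at h
  obtain ⟨⟨h1, h2⟩, h3⟩ := h
  rw [← h1] at h2 h3
  apply rk_inj ha hb h1
  rw [← Nat.div_add_mod (rk a) (Q (Nat.log 4 a) + 1), ← Nat.div_add_mod (rk b) (Q (Nat.log 4 a) + 1),
    h2, h3]

/-- constraints of a configuration -/
noncomputable def cev (Q : ℕ → ℕ) (c : (Fin H → ℕ) × (Fin g → ℕ)) : Finset ((ℕ × ℕ) × ℕ) :=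
  (univ.image (el c)).image (kap Q)

open Classical in
/-- configurations with top block `T` -/
noncomputable def Conf (H g T : ℕ) : Finset ((Fin H → ℕ) × (Fin g → ℕ)) :=
  ((Fintype.piFinset (fun _ : Fin H => Ico 1 (4 ^ (T + 1)))) ×ˢ
    (Fintype.piFinset (fun _ : Fin g => Ico 1 (4 ^ (T + 1))))).filter
    (fun c => Function.Injective (el c) ∧ (∀ p, el c p ∈ Sinf ∧ Nat.log 4 (el c p) ≤ T) ∧
      ∃ p, Nat.log 4 (el c p) = T)

/-- two elements in the top block -/
theorem two_top (hH : 1 ≤ H) (hg : 2 ≤ g) (T : ℕ) (c : (Fin H → ℕ) × (Fin g → ℕ))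
    (hc : c ∈ Conf H g T) :
    ∃ p q : Option (Fin H) × Fin g, p ≠ q ∧ Nat.log 4 (el c p) = T ∧ Nat.log 4 (el c q) = T := by
  classical
  unfold Conf at hc
  rw [mem_filter] at hc
  obtain ⟨-, hinj, hall, ⟨⟨o, j⟩, hp⟩⟩ := hc
  rcases o with _ | i
  · refine ⟨(none, j), (some ⟨0, by omega⟩, j), by simp, hp, ?_⟩
    apply le_antisymm (hall _).2
    rw [← hp]
    apply Nat.log_mono_right
    simp [el]
  · have hS := (hall (some i, j)).1
    have h4 : 4 ^ T ≤ el c (some i, j) := by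
      have h := (S_mem (show el c (some i, j) ∈ S (Nat.log 4 (el c (some i, j))) from hS)).1
      rwa [hp] at h
    by_cases hy : 4 ^ T ≤ 2 * c.2 j
    · refine ⟨(some i, j), (none, j), by simp, hp, ?_⟩
      apply le_antisymm (hall _).2
      apply le_log_of_half (hall _).1
      simpa [el] using hy
    · have hd : 4 ^ T ≤ 2 * c.1 i := by
        simp only [el] at h4
        omega
      obtain ⟨j', hj'⟩ : ∃ j' : Fin g, j' ≠ j := by
        have : Nontrivial (Fin g) := Fin.nontrivial_iff_two_le.mpr hg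
        exact exists_ne j
      refine ⟨(some i, j), (some i, j'), by simp [Ne.symm hj'], hp, ?_⟩
      apply le_antisymm (hall _).2
      apply le_log_of_half (hall _).1
      simp only [el]
      omega

theorem prod_inv_le {ι : Type*} [Fintype ι] [DecidableEq ι] (f : ι → ℝ) (h0 : ∀ i, 0 ≤ f i)
    (h1 : ∀ i, f i ≤ 1) (p q : ι) (hpq : p ≠ q) : ∏ i, f i ≤ f p * f q := by
  rw [← Finset.mul_prod_erase univ f (mem_univ p),
    ← Finset.mul_prod_erase (univ.erase p) f (mem_erase.mpr ⟨hpq.symm, mem_univ q⟩), ← mul_assoc]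
  have h2 : ∏ i ∈ (univ.erase p).erase q, f i ≤ 1 :=
    Finset.prod_le_one (fun i _ => h0 i) (fun i _ => h1 i)
  have h3 : 0 ≤ f p * f q := mul_nonneg (h0 p) (h0 q)
  nlinarith

theorem conf_term (hH : 1 ≤ H) (hg : 2 ≤ g) (Q : ℕ → ℕ) (w : ℕ → ℝ) (hw : ∀ t, 1 ≤ w t)
    (hQ : ∀ t, 1 / ((Q t : ℝ) + 1) ≤ wt H g t / w t) (T : ℕ) (c : (Fin H → ℕ) × (Fin g → ℕ))
    (hc : c ∈ Conf H g T) :
    ∏ p ∈ cev Q c, (1 / ((Q p.1.1 : ℝ) + 1)) ≤
      (1 / w T) ^ 2 * ((∏ j, wt H g (Nat.log 4 (c.2 j))) *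
          ∏ i, ∏ j, wt H g (max (Nat.log 4 (c.1 i)) (Nat.log 4 (c.2 j)))) := by
  classical
  obtain ⟨p, q, hpq, hpT, hqT⟩ := two_top hH hg T c hc
  unfold Conf at hc
  rw [mem_filter] at hc
  obtain ⟨-, hinj, hall, -⟩ := hc
  have e1 : ∏ p ∈ cev Q c, (1 / ((Q p.1.1 : ℝ) + 1)) =
      ∏ p, (1 / ((Q (Nat.log 4 (el c p)) : ℝ) + 1)) := by
    unfold cev
    rw [Finset.prod_image, Finset.prod_image]
    · rfl
    · intro a _ b _ hab
      exact hinj hab
    · intro a ha b hb hab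
      simp only [coe_image, coe_univ, Set.image_univ, Set.mem_range] at ha hb
      obtain ⟨a', rfl⟩ := ha
      obtain ⟨b', rfl⟩ := hb
      exact kap_inj Q (hall a').1 (hall b').1 hab
  rw [e1]
  have hwpos : ∀ t, 0 < w t := fun t => lt_of_lt_of_le one_pos (hw t)
  calc ∏ p, (1 / ((Q (Nat.log 4 (el c p)) : ℝ) + 1))
      ≤ ∏ p, ((1 / w (Nat.log 4 (el c p))) * wt H g (Nat.log 4 (el c p))) := by
        refine Finset.prod_le_prod (fun p _ => by positivity) (fun p _ => ?_)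
        refine (hQ _).trans (le_of_eq ?_)
        rw [div_eq_mul_one_div, mul_comm]
    _ = (∏ p, (1 / w (Nat.log 4 (el c p)))) * ∏ p, wt H g (Nat.log 4 (el c p)) :=
        Finset.prod_mul_distrib
    _ ≤ (1 / w T) ^ 2 * ((∏ j, wt H g (Nat.log 4 (c.2 j))) *
          ∏ i, ∏ j, wt H g (max (Nat.log 4 (c.1 i)) (Nat.log 4 (c.2 j)))) := by
        refine mul_le_mul ?_ ?_ (Finset.prod_nonneg fun p _ => (wt_pos _ _ _).le) (by
          have := hwpos T
          positivity)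
        · have := prod_inv_le (fun p => 1 / w (Nat.log 4 (el c p)))
            (fun p => by have := hwpos (Nat.log 4 (el c p)); positivity)
            (fun p => by
              rw [div_le_one (hwpos _)]
              exact hw _) p q hpq
          simp only [hpT, hqT] at this
          rw [sq]
          exact this
        · rw [Fintype.prod_prod_type, Fintype.prod_option]
          refine mul_le_mul ?_ ?_ ?_ ?_
          · refine le_of_eq (Finset.prod_congr rfl fun j _ => ?_)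
            simp [el]
          · refine Finset.prod_le_prod (fun i _ => Finset.prod_nonneg fun j _ => (wt_pos _ _ _).le)
              (fun i _ => Finset.prod_le_prod (fun j _ => (wt_pos _ _ _).le) (fun j _ => ?_))
            apply wt_anti H g hH hg
            apply max_le
            · apply Nat.log_mono_right
              simp [el]
            · apply Nat.log_mono_right
              simp [el]
          · exact Finset.prod_nonneg fun i _ => Finset.prod_nonneg fun j _ => (wt_pos _ _ _).le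
          · exact Finset.prod_nonneg fun i _ => (wt_pos _ _ _).le

/-- product weight of a pair -/
noncomputable def pw (H g : ℕ) (c : (Fin H → ℕ) × (Fin g → ℕ)) : ℝ :=
  (∏ j, wt H g (Nat.log 4 (c.2 j))) *
          ∏ i, ∏ j, wt H g (max (Nat.log 4 (c.1 i)) (Nat.log 4 (c.2 j)))

theorem pw_nonneg (c : (Fin H → ℕ) × (Fin g → ℕ)) : 0 ≤ pw H g c := by
  unfold pw
  exact mul_nonneg (Finset.prod_nonneg fun i _ => (wt_pos _ _ _).le)
    (Finset.prod_nonneg fun i _ => Finset.prod_nonneg fun j _ => (wt_pos _ _ _).le)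

theorem pw_sum (T : ℕ) (hH : 1 ≤ H) (hg : 2 ≤ g) :
    ∑ c ∈ (Fintype.piFinset (fun _ : Fin H => Ico 1 (4 ^ (T + 1)))) ×ˢ
          (Fintype.piFinset (fun _ : Fin g => Ico 1 (4 ^ (T + 1)))), pw H g c ≤
      (4 : ℝ) ^ (alpha H g * T) * (3 * (T + 1)) ^ (H + g) := by
  rw [Finset.sum_product]
  exact sum_bound H g T hH hg

theorem conf_weight (hH : 1 ≤ H) (hg : 2 ≤ g) (Q : ℕ → ℕ) (w : ℕ → ℝ) (hw : ∀ t, 1 ≤ w t)
    (hQ : ∀ t, 1 / ((Q t : ℝ) + 1) ≤ wt H g t / w t) (T : ℕ) :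
    ∑ c ∈ Conf H g T, ∏ p ∈ cev Q c, (1 / ((Q p.1.1 : ℝ) + 1)) ≤
      (1 / w T) ^ 2 * ((4 : ℝ) ^ (alpha H g * T) * (3 * (T + 1)) ^ (H + g)) := by
  have h1 : ∑ c ∈ Conf H g T, ∏ p ∈ cev Q c, (1 / ((Q p.1.1 : ℝ) + 1)) ≤
      ∑ c ∈ Conf H g T, (1 / w T) ^ 2 * pw H g c :=
    Finset.sum_le_sum fun c hc => conf_term hH hg Q w hw hQ T c hc
  have h2 : ∑ c ∈ Conf H g T, pw H g c ≤
      ∑ c ∈ (Fintype.piFinset (fun _ : Fin H => Ico 1 (4 ^ (T + 1)))) ×ˢ
          (Fintype.piFinset (fun _ : Fin g => Ico 1 (4 ^ (T + 1)))), pw H g c := by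
    refine Finset.sum_le_sum_of_subset_of_nonneg ?_ fun c _ _ => pw_nonneg c
    intro c hc
    classical
    unfold Conf at hc
    rw [mem_filter] at hc
    exact hc.1
  rw [← Finset.mul_sum] at h1
  refine h1.trans ?_
  refine mul_le_mul_of_nonneg_left (h2.trans (pw_sum T hH hg)) ?_
  positivity

end N417.Chg
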