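import Pool.Agent.N417.Chg.Growth

open Finset Filter

namespace N417.Chg

theorem summable_aux : Summable (fun T : ℕ => (1 : ℝ) / ((T : ℝ) + 1) ^ 2) := by
  have h := (summable_nat_add_iff 1).mpr (Real.summable_one_div_nat_pow.mpr (by norm_num : 1 < 2))
  simpa using h

/-- normalisation constant -/
noncomputable def c0 : ℝ := 1 / (2 * ((∑' T : ℕ, (1 : ℝ) / ((T : ℝ) + 1) ^ 2) + 1))

theorem c0_pos : 0 < c0 := by
  unfold c0
  have : 0 ≤ ∑' T : ℕ, (1 : ℝ) / ((T : ℝ) + 1) ^ 2 := tsum_nonneg fun _ => by positivity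
  positivity

/-- failure probabilities -/
noncomputable def dl (T : ℕ) : ℝ := c0 * (1 / ((T : ℝ) + 1) ^ 2)

theorem dl_pos (T : ℕ) : 0 < dl T := by
  unfold dl
  have := c0_pos
  positivity

theorem dl_summable : Summable dl := summable_aux.mul_left c0

theorem dl_tsum : ∑' T, dl T < 1 := by
  unfold dl
  rw [tsum_mul_left]
  have : 0 ≤ ∑' T : ℕ, (1 : ℝ) / ((T : ℝ) + 1) ^ 2 := tsum_nonneg fun _ => by positivity
  unfold c0
  rw [one_div, inv_mul_lt_iff₀ (by positivity)]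
  linarith

/-- the polynomial loss -/
noncomputable def W (H g T : ℕ) : ℕ :=
  ⌈8 * (3 * ((T : ℝ) + 1)) ^ (H + g) * 4 ^ T / (dl T * ((S T).card : ℝ))⌉₊ + 1

theorem W_lower (H g T : ℕ) :
    8 * (3 * ((T : ℝ) + 1)) ^ (H + g) * 4 ^ T ≤ dl T * ((S T).card : ℝ) * W H g T := by
  have h1 : (0 : ℝ) < (S T).card := by exact_mod_cast card_pos T
  have h2 := dl_pos T
  have h3 : 8 * (3 * ((T : ℝ) + 1)) ^ (H + g) * 4 ^ T / (dl T * ((S T).card : ℝ)) ≤ W H g T := by
    unfold W
    push_cast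
    have := Nat.le_ceil (8 * (3 * ((T : ℝ) + 1)) ^ (H + g) * 4 ^ T / (dl T * ((S T).card : ℝ)))
    linarith
  rw [div_le_iff₀ (by positivity)] at h3
  linarith

theorem W_one (H g T : ℕ) : (1 : ℝ) ≤ W H g T := by
  unfold W
  push_cast
  have : (0 : ℝ) ≤ (⌈8 * (3 * ((T : ℝ) + 1)) ^ (H + g) * 4 ^ T / (dl T * ((S T).card : ℝ))⌉₊ : ℝ) := by
    positivity
  linarith

/-- cell size minus one -/
noncomputable def Qf (H g T : ℕ) : ℕ := ⌈(4 : ℝ) ^ (beta H g * T)⌉₊ * W H g T - 1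

theorem Qf_eq (H g T : ℕ) :
    ((Qf H g T : ℕ) : ℝ) + 1 = (⌈(4 : ℝ) ^ (beta H g * T)⌉₊ : ℝ) * W H g T := by
  have h1 : 1 ≤ ⌈(4 : ℝ) ^ (beta H g * T)⌉₊ := Nat.ceil_pos.mpr (by positivity)
  have h2 : 1 ≤ W H g T := by unfold W; omega
  have h3 : 1 ≤ ⌈(4 : ℝ) ^ (beta H g * T)⌉₊ * W H g T := Nat.one_le_iff_ne_zero.mpr (by positivity)
  unfold Qf
  rw [Nat.cast_sub h3]
  push_cast
  ring

theorem Qf_lower (H g T : ℕ) : (4 : ℝ) ^ (beta H g * T) * W H g T ≤ (Qf H g T : ℝ) + 1 := by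
  rw [Qf_eq]
  refine mul_le_mul_of_nonneg_right (Nat.le_ceil _) (by positivity)

theorem Qf_upper (H g T : ℕ) (hH : 1 ≤ H) (hg : 2 ≤ g) :
    (Qf H g T : ℝ) + 1 ≤ 2 * (4 : ℝ) ^ (beta H g * T) * W H g T := by
  rw [Qf_eq]
  refine mul_le_mul_of_nonneg_right ?_ (by positivity)
  have h1 := (Nat.ceil_lt_add_one (a := (4 : ℝ) ^ (beta H g * T)) (by positivity)).le
  have h2 : (1 : ℝ) ≤ (4 : ℝ) ^ (beta H g * T) := by
    apply Real.one_le_rpow (by norm_num)
    have := beta_nonneg H g hH hg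
    positivity
  linarith

theorem main_ineq (H g T : ℕ) (hH : 1 ≤ H) (hg : 2 ≤ g) :
    (1 / (W H g T : ℝ)) ^ 2 * ((4 : ℝ) ^ (alpha H g * T) * (3 * ((T : ℝ) + 1)) ^ (H + g)) ≤
      dl T * ((((S T).card / (Qf H g T + 1) : ℕ) + 1 : ℝ) / 4) := by
  have hW := W_one H g T
  have hWpos : (0 : ℝ) < W H g T := by linarith
  have hR : (0 : ℝ) < (S T).card := by exact_mod_cast card_pos T
  have hdl := dl_pos T
  have hlow := W_lower H g T
  have hup := Qf_upper H g T hH hg
  -- m + 1 ≥ R / (Q+1)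
  have hm : ((S T).card : ℝ) / ((Qf H g T : ℝ) + 1) ≤ (((S T).card / (Qf H g T + 1) : ℕ) + 1 : ℝ) := by
    rw [div_le_iff₀ (by positivity)]
    have := Nat.lt_div_mul_add (a := (S T).card) (b := Qf H g T + 1) (by omega)
    have h' : ((S T).card : ℝ) ≤ (((S T).card / (Qf H g T + 1) * (Qf H g T + 1) + (Qf H g T + 1) : ℕ) : ℝ) := by
      exact_mod_cast this.le
    push_cast at h' ⊢
    linarith
  have hm2 : ((S T).card : ℝ) / (2 * (4 : ℝ) ^ (beta H g * T) * W H g T) ≤
      (((S T).card / (Qf H g T + 1) : ℕ) + 1 : ℝ) := by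
    refine le_trans ?_ hm
    exact div_le_div_of_nonneg_left hR.le (by positivity) hup
  have hab : (4 : ℝ) ^ (alpha H g * T) * (4 : ℝ) ^ (beta H g * T) = 4 ^ T := by
    rw [← Real.rpow_add (by norm_num), ← add_mul, alpha_add_beta H g hH hg, one_mul,
      Real.rpow_natCast]
  set P := (3 * ((T : ℝ) + 1)) ^ (H + g) with hP
  set Wr : ℝ := (W H g T : ℝ) with hWr
  set R : ℝ := ((S T).card : ℝ) with hRdef
  set a4 := (4 : ℝ) ^ (alpha H g * T) with ha4
  set b4 := (4 : ℝ) ^ (beta H g * T) with hb4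
  have ha4p : 0 < a4 := by positivity
  have hb4p : 0 < b4 := by positivity
  have hPp : 0 < P := by positivity
  have step : (1 / Wr) ^ 2 * (a4 * P) ≤ dl T * ((R / (2 * b4 * Wr)) / 4) := by
    have e1 : (1 / Wr) ^ 2 * (a4 * P) = (8 * P * 4 ^ T) / (8 * b4 * Wr ^ 2) := by
      rw [← hab]
      field_simp
    have e2 : dl T * ((R / (2 * b4 * Wr)) / 4) = (dl T * R * Wr) / (8 * b4 * Wr ^ 2) := by
      field_simp
      ring
    rw [e1, e2]
    exact div_le_div_of_nonneg_right hlow (by positivity)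
  refine step.trans ?_
  refine mul_le_mul_of_nonneg_left ?_ hdl.le
  linarith

theorem exists_final (H g : ℕ) (hH : 1 ≤ H) (hg : 2 ≤ g) :
    ∃ A : Set ℕ, A ⊆ Sinf ∧
      (∀ (d : Fin H → ℕ), (∀ i, 1 ≤ d i) → Function.Injective d → ∀ y : Fin g → ℕ,
        Function.Injective y → ¬ ∀ p, el (d, y) p ∈ A) ∧
      ∀ T, (((S T).card / (Qf H g T + 1) : ℕ) : ℝ) / 2 ≤
        ({a | a ∈ A ∧ Nat.log 4 a = T}.ncard : ℝ) := by
  refine exists_set hH hg (Qf H g) (fun T => (W H g T : ℝ)) (W_one H g) ?_ dl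
    (fun T => (dl_pos T).le) dl_summable dl_tsum (fun T => main_ineq H g T hH hg)
  intro t
  have hW := W_one H g t
  have hlow := Qf_lower H g t
  unfold wt
  rw [Real.rpow_neg (by norm_num), one_div, div_eq_mul_inv, ← mul_inv]
  exact inv_anti₀ (by positivity) hlow

/-- growth of the blocks -/
theorem block_growth (H g : ℕ) (hH : 1 ≤ H) (hg : 2 ≤ g) (η : ℝ) (hη : 0 < η)
    (hηα : η < alpha H g) :
    ∀ᶠ T : ℕ in atTop, (4 : ℝ) ^ ((alpha H g - η) * T) / 4 ≤
      (((S T).card / (Qf H g T + 1) : ℕ) : ℝ) / 2 := by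
  have hc0 := c0_pos
  set k : ℕ := H + g + 2 with hk
  set K : ℝ := 16 * 3 ^ (H + g) / c0 + 2 with hK
  have hKpos : 0 < K := by positivity
  have hev := absorb (4 * K) k η hη
  have hbig : Tendsto (fun T : ℕ => (4 : ℝ) ^ ((alpha H g - η) * T)) atTop atTop := by
    have h1 : Tendsto (fun T : ℕ => ((4 : ℝ) ^ (alpha H g - η)) ^ T) atTop atTop :=
      tendsto_pow_atTop_atTop_of_one_lt (Real.one_lt_rpow (by norm_num) (by linarith))
    refine h1.congr fun T => ?_
    rw [← Real.rpow_natCast, ← Real.rpow_mul (by norm_num)]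
  filter_upwards [hev, hbig.eventually_ge_atTop 2] with T hT hT2
  have hW := W_one H g T
  have hWpos : (0 : ℝ) < W H g T := by linarith
  have hR : (0 : ℝ) < (S T).card := by exact_mod_cast card_pos T
  have hRlow := card_lower T
  have hup := Qf_upper H g T hH hg
  set E := Real.exp (4 * Real.sqrt (T * Real.log 4)) with hE
  have hE1 : 1 ≤ E := by
    rw [hE]
    apply Real.one_le_exp
    positivity
  have hEinv : Real.exp (-(4 * Real.sqrt (T * Real.log 4))) = 1 / E := by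
    rw [Real.exp_neg, one_div]
  have hE2 : Real.exp (8 * Real.sqrt (T * Real.log 4)) = E * E := by
    rw [hE, ← Real.exp_add]
    congr 1
    ring
  rw [hEinv] at hRlow
  rw [hE2] at hT
  set R : ℝ := ((S T).card : ℝ) with hRdef
  have hEpos : 0 < E := by linarith
  have h4T : (0 : ℝ) < 4 ^ T := by positivity
  -- upper bound on W
  have hWup : (W H g T : ℝ) ≤ K * ((T : ℝ) + 1) ^ k * E := by
    have h1 : (W H g T : ℝ) ≤ 8 * (3 * ((T : ℝ) + 1)) ^ (H + g) * 4 ^ T / (dl T * R) + 2 := by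
      unfold W
      push_cast
      have := (Nat.ceil_lt_add_one (a := 8 * (3 * ((T : ℝ) + 1)) ^ (H + g) * 4 ^ T / (dl T * R))
        (by have := dl_pos T; positivity)).le
      linarith
    have h2 : 8 * (3 * ((T : ℝ) + 1)) ^ (H + g) * 4 ^ T / (dl T * R) ≤
        16 * 3 ^ (H + g) / c0 * ((T : ℝ) + 1) ^ k * E := by
      have hdl := dl_pos T
      rw [div_le_iff₀ (by positivity)]
      have h3 : 4 ^ T ≤ 2 * E * R := by
        have : (4 : ℝ) ^ T = 2 * E * ((4 : ℝ) ^ T / 2 * (1 / E)) := by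
          field_simp
        rw [this]
        exact mul_le_mul_of_nonneg_left hRlow (by positivity)
      have h4 : 16 * 3 ^ (H + g) / c0 * ((T : ℝ) + 1) ^ k * E * (dl T * R) =
          8 * (3 * ((T : ℝ) + 1)) ^ (H + g) * (2 * E * R) := by
        unfold dl
        rw [hk, mul_pow, pow_add _ (H + g) 2]
        field_simp
        ring
      rw [h4]
      exact mul_le_mul_of_nonneg_left h3 (by positivity)
    have h3 : (1 : ℝ) ≤ ((T : ℝ) + 1) ^ k * E := by
      have : (1 : ℝ) ≤ ((T : ℝ) + 1) ^ k := one_le_pow₀ (by linarith [show (0 : ℝ) ≤ T by positivity])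
      nlinarith
    calc (W H g T : ℝ) ≤ 16 * 3 ^ (H + g) / c0 * ((T : ℝ) + 1) ^ k * E + 2 := by linarith
      _ ≤ K * ((T : ℝ) + 1) ^ k * E := by
          rw [hK]
          nlinarith
  -- lower bound on R/(Q+1)
  have hab : (4 : ℝ) ^ (alpha H g * T) * (4 : ℝ) ^ (beta H g * T) = 4 ^ T := by
    rw [← Real.rpow_add (by norm_num), ← add_mul, alpha_add_beta H g hH hg, one_mul,
      Real.rpow_natCast]
  have hsplit : (4 : ℝ) ^ ((alpha H g - η) * T) * (4 : ℝ) ^ (η * T) = (4 : ℝ) ^ (alpha H g * T) := by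
    rw [← Real.rpow_add (by norm_num)]
    congr 1
    ring
  set X := (4 : ℝ) ^ ((alpha H g - η) * T) with hX
  have hXpos : 0 < X := by positivity
  have hq : X * ((Qf H g T : ℝ) + 1) ≤ R := by
    calc X * ((Qf H g T : ℝ) + 1) ≤ X * (2 * (4 : ℝ) ^ (beta H g * T) * (K * ((T : ℝ) + 1) ^ k * E)) := by
          refine mul_le_mul_of_nonneg_left (hup.trans ?_) hXpos.le
          exact mul_le_mul_of_nonneg_left hWup (by positivity)
      _ = (X * (4 : ℝ) ^ (beta H g * T) * (4 * K * ((T : ℝ) + 1) ^ k * (E * E))) / (2 * E) := by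
          field_simp
          ring
      _ ≤ (X * (4 : ℝ) ^ (beta H g * T) * (4 : ℝ) ^ (η * T)) / (2 * E) := by
          refine div_le_div_of_nonneg_right ?_ (by positivity)
          exact mul_le_mul_of_nonneg_left hT (by positivity)
      _ = 4 ^ T / 2 * (1 / E) := by
          rw [← hab, ← hsplit]
          field_simp
      _ ≤ R := hRlow
  have hm : X ≤ (((S T).card / (Qf H g T + 1) : ℕ) : ℝ) + 1 := by
    have h1 : X ≤ R / ((Qf H g T : ℝ) + 1) := by
      rw [le_div_iff₀ (by positivity)]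
      exact hq
    refine h1.trans ?_
    rw [div_le_iff₀ (by positivity)]
    have := Nat.lt_div_mul_add (a := (S T).card) (b := Qf H g T + 1) (by omega)
    have h' : ((S T).card : ℝ) ≤ (((S T).card / (Qf H g T + 1) * (Qf H g T + 1) + (Qf H g T + 1) : ℕ) : ℝ) := by
      exact_mod_cast this.le
    push_cast at h' ⊢
    rw [hRdef]
    linarith
  linarith

/-- The full statement for `h = H + 1`. -/
theorem full (H g : ℕ) (hH : 1 ≤ H) (hg : 2 ≤ g) :
    ∃ A : Set ℤ, A ⊆ {n : ℤ | 1 ≤ n} ∧ A.Infinite ∧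
      (∀ X : Finset ℤ, X.card = H + 1 → ∀ k : Fin g → ℤ, Function.Injective k →
        ¬ (∀ i : Fin g, ∀ x ∈ X, x + k i ∈ A)) ∧
      ∀ ε : ℝ, 0 < ε → ∀ᶠ n : ℕ in atTop,
        (n : ℝ) ^ (alpha H g - ε) ≤ ((A ∩ Set.Icc (1 : ℤ) (n : ℤ)).ncard : ℝ) := by
  obtain ⟨A, hAS, hno, hgr⟩ := exists_final H g hH hg
  have hα := alpha_pos H g hH hg
  set Az : Set ℤ := (fun n : ℕ => (n : ℤ)) '' A with hAz
  have hmem : ∀ n : ℕ, (n : ℤ) ∈ Az ↔ n ∈ A := by
    intro n
    constructor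
    · rintro ⟨m, hm, hmn⟩
      have hmn' : (m : ℤ) = (n : ℤ) := hmn
      have : m = n := by exact_mod_cast hmn'
      rwa [← this]
    · intro h
      exact ⟨n, h, rfl⟩
  have hpos : Az ⊆ {n : ℤ | 1 ≤ n} := by
    rintro _ ⟨n, hn, rfl⟩
    have := Sinf_pos (hAS hn)
    show (1 : ℤ) ≤ (n : ℤ)
    exact_mod_cast this
  have hcount : ∀ n T : ℕ, 4 ^ (T + 1) ≤ n →
      {a | a ∈ A ∧ Nat.log 4 a = T}.ncard ≤ (Az ∩ Set.Icc (1 : ℤ) (n : ℤ)).ncard := by
    intro n T hn
    rw [← Set.ncard_image_of_injective {a | a ∈ A ∧ Nat.log 4 a = T}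
      (Nat.cast_injective (R := ℤ))]
    refine Set.ncard_le_ncard ?_ ((Set.finite_Icc _ _).inter_of_right _)
    rintro _ ⟨a, ⟨ha, haT⟩, rfl⟩
    refine ⟨⟨a, ha, rfl⟩, hpos ⟨a, ha, rfl⟩, ?_⟩
    have h1 : a < 4 ^ (T + 1) := by
      rw [← haT]
      exact Nat.lt_pow_succ_log_self (by norm_num) _
    have : a ≤ n := by omega
    exact_mod_cast this
  have hgrowth : ∀ ε : ℝ, 0 < ε → ∀ᶠ n : ℕ in atTop,
        (n : ℝ) ^ (alpha H g - ε) ≤ ((Az ∩ Set.Icc (1 : ℤ) (n : ℤ)).ncard : ℝ) := by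
    intro ε hε
    set η := min (ε / 2) (alpha H g / 2) with hη
    have hη0 : 0 < η := lt_min (by positivity) (by positivity)
    have hη1 : η ≤ ε / 2 := min_le_left _ _
    have hη2 : η < alpha H g := lt_of_le_of_lt (min_le_right _ _) (by linarith)
    have hev := block_growth H g hH hg η hη0 hη2
    -- extra room
    have hroom : ∀ᶠ T : ℕ in atTop, (4 : ℝ) ^ (2 * alpha H g - ε + 1) ≤ (4 : ℝ) ^ ((ε - η) * T) := by
      have h1 : Tendsto (fun T : ℕ => ((4 : ℝ) ^ (ε - η)) ^ T) atTop atTop :=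
        tendsto_pow_atTop_atTop_of_one_lt (Real.one_lt_rpow (by norm_num) (by linarith))
      have h2 : Tendsto (fun T : ℕ => (4 : ℝ) ^ ((ε - η) * T)) atTop atTop := by
        refine h1.congr fun T => ?_
        rw [← Real.rpow_natCast, ← Real.rpow_mul (by norm_num)]
      exact h2.eventually_ge_atTop _
    have hboth := hev.and hroom
    rw [eventually_atTop] at hboth
    obtain ⟨T0, hT0⟩ := hboth
    filter_upwards [eventually_ge_atTop (4 ^ (T0 + 1))] with n hn
    -- T with 4^(T+1) ≤ n < 4^(T+2)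
    have hn0 : n ≠ 0 := by
      have : 0 < 4 ^ (T0 + 1) := by positivity
      omega
    set L := Nat.log 4 n with hL
    have hL1 : T0 + 1 ≤ L := by
      rw [hL]
      exact Nat.le_log_of_pow_le (by norm_num) hn
    obtain ⟨T, hT⟩ : ∃ T, L = T + 1 := ⟨L - 1, by omega⟩
    have hTT0 : T0 ≤ T := by omega
    have hlow : 4 ^ (T + 1) ≤ n := by
      rw [← hT, hL]
      exact Nat.pow_log_le_self 4 hn0
    have hup : n < 4 ^ (T + 2) := by
      have := Nat.lt_pow_succ_log_self (b := 4) (by norm_num) n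
      rw [← hL, hT] at this
      exact this
    obtain ⟨h1, h2⟩ := hT0 T hTT0
    have h3 : (4 : ℝ) ^ ((alpha H g - η) * T) / 4 ≤
        ((Az ∩ Set.Icc (1 : ℤ) (n : ℤ)).ncard : ℝ) := by
      refine (h1.trans (hgr T)).trans ?_
      exact_mod_cast hcount n T hlow
    refine le_trans ?_ h3
    have hnpos : (0 : ℝ) < n := by
      have : 0 < n := Nat.pos_of_ne_zero hn0
      exact_mod_cast this
    have hnup : (n : ℝ) ≤ 4 ^ (T + 2) := by exact_mod_cast hup.le
    have hnlow : (4 : ℝ) ^ (T + 1) ≤ n := by exact_mod_cast hlow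
    have e1 : (n : ℝ) ^ (alpha H g - ε) ≤
        (4 : ℝ) ^ (alpha H g * ((T : ℝ) + 2)) * (4 : ℝ) ^ (-(ε * ((T : ℝ) + 1))) := by
      rw [sub_eq_add_neg, Real.rpow_add hnpos]
      refine mul_le_mul ?_ ?_ (by positivity) (by positivity)
      · calc (n : ℝ) ^ (alpha H g) ≤ ((4 : ℝ) ^ (T + 2)) ^ (alpha H g) :=
            Real.rpow_le_rpow hnpos.le hnup hα.le
          _ = _ := by
              rw [← Real.rpow_natCast, ← Real.rpow_mul (by norm_num)]
              congr 1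
              push_cast
              ring
      · rw [Real.rpow_neg hnpos.le, Real.rpow_neg (by norm_num)]
        apply inv_anti₀ (by positivity)
        calc (4 : ℝ) ^ (ε * ((T : ℝ) + 1)) = ((4 : ℝ) ^ (T + 1)) ^ ε := by
              rw [← Real.rpow_natCast, ← Real.rpow_mul (by norm_num)]
              congr 1
              push_cast
              ring
          _ ≤ (n : ℝ) ^ ε := Real.rpow_le_rpow (by positivity) hnlow hε.le
    refine e1.trans ?_
    rw [← Real.rpow_add (by norm_num), le_div_iff₀ (by norm_num)]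
    have e2 : (4 : ℝ) ^ (alpha H g * ((T : ℝ) + 2) + -(ε * ((T : ℝ) + 1))) * 4 =
        (4 : ℝ) ^ ((alpha H g - ε) * T) * (4 : ℝ) ^ (2 * alpha H g - ε + 1) := by
      nth_rewrite 2 [show (4 : ℝ) = (4 : ℝ) ^ (1 : ℝ) by simp]
      rw [← Real.rpow_add (by norm_num), ← Real.rpow_add (by norm_num)]
      congr 1
      ring
    have e3 : (4 : ℝ) ^ ((alpha H g - η) * T) =
        (4 : ℝ) ^ ((alpha H g - ε) * T) * (4 : ℝ) ^ ((ε - η) * T) := by
      rw [← Real.rpow_add (by norm_num)]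
      congr 1
      ring
    rw [e2, e3]
    exact mul_le_mul_of_nonneg_left h2 (by positivity)
  refine ⟨Az, hpos, ?_, ?_, hgrowth⟩
  · -- infinite
    intro hfin
    have hev := hgrowth (alpha H g / 2) (by positivity)
    have hbig : Tendsto (fun n : ℕ => (n : ℝ) ^ (alpha H g - alpha H g / 2)) atTop atTop :=
      (tendsto_rpow_atTop (by linarith)).comp tendsto_natCast_atTop_atTop
    obtain ⟨n, hn1, hn2⟩ := (hev.and (hbig.eventually_gt_atTop (Az.ncard : ℝ))).exists
    have h3 : (Az ∩ Set.Icc (1 : ℤ) (n : ℤ)).ncard ≤ Az.ncard :=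
      Set.ncard_le_ncard Set.inter_subset_left hfin
    have h4 : ((Az ∩ Set.Icc (1 : ℤ) (n : ℤ)).ncard : ℝ) ≤ (Az.ncard : ℝ) := by exact_mod_cast h3
    linarith
  · intro X hX k hk hall
    have hne : X.Nonempty := by
      rw [← Finset.card_pos]
      omega
    set m := X.min' hne with hm
    have hmX : m ∈ X := Finset.min'_mem _ _
    have hcard : (X.erase m).card = H := by
      rw [Finset.card_erase_of_mem hmX, hX]
      omega
    have e : Fin H ≃ {x // x ∈ X.erase m} := (Finset.equivFinOfCardEq hcard).symm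
    have hlt : ∀ i, m < (e i : ℤ) := by
      intro i
      have h1 := (e i).2
      rw [Finset.mem_erase] at h1
      exact lt_of_le_of_ne (Finset.min'_le _ _ h1.2) (Ne.symm h1.1)
    have hy : ∀ j, 1 ≤ m + k j := fun j => hpos (hall j m hmX)
    set d : Fin H → ℕ := fun i => ((e i : ℤ) - m).toNat with hd
    set y : Fin g → ℕ := fun j => (m + k j).toNat with hydef
    have hdc : ∀ i, (d i : ℤ) = (e i : ℤ) - m := fun i =>
      Int.toNat_of_nonneg (by have := hlt i; omega)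
    have hyc : ∀ j, (y j : ℤ) = m + k j := fun j =>
      Int.toNat_of_nonneg (by have := hy j; omega)
    refine hno d ?_ ?_ y ?_ ?_
    · intro i
      have h1 := hdc i
      have h2 := hlt i
      omega
    · intro i i' hii
      have h1 := hdc i
      have h2 := hdc i'
      rw [hii] at h1
      have : (e i : ℤ) = e i' := by omega
      exact e.injective (Subtype.ext this)
    · intro j j' hjj
      have h1 := hyc j
      have h2 := hyc j'
      rw [hjj] at h1
      have : k j = k j' := by omega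
      exact hk this
    · rintro ⟨o, j⟩
      rw [← hmem]
      rcases o with _ | i
      · have : ((el (d, y) (none, j) : ℕ) : ℤ) = m + k j := by
          simp only [el]
          rw [add_zero]
          exact hyc j
        rw [this]
        exact hall j m hmX
      · have : ((el (d, y) (some i, j) : ℕ) : ℤ) = (e i : ℤ) + k j := by
          simp only [el]
          push_cast
          rw [hyc j, hdc i]
          ring
        rw [this]
        exact hall j _ (Finset.mem_of_mem_erase (e i).2)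

/-- exponent identity -/
theorem alpha_eq (H g : ℕ) (hH : 1 ≤ H) (hg : 2 ≤ g) :
    (1 - 1 / ((H + 1 : ℕ) : ℝ)) * (1 - 1 / (g : ℝ)) *
      (1 + 1 / (((H + 1 : ℕ) : ℝ) * (g : ℝ) - 1)) = alpha H g := by
  have hD := den_pos H g hH hg
  have h1 : (0 : ℝ) < (H : ℝ) + 1 := by positivity
  have h2 : (0 : ℝ) < g := by
    have : 0 < g := by omega
    exact_mod_cast this
  unfold alpha
  push_cast
  have hD' : ((H : ℝ) + 1) * g - 1 ≠ 0 := hD.ne'
  have e1 : 1 + 1 / (((H : ℝ) + 1) * g - 1) = (((H : ℝ) + 1) * g) / (((H : ℝ) + 1) * g - 1) := by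
    rw [eq_div_iff hD', add_mul, one_mul, div_mul_cancel₀ _ hD']
    ring
  rw [e1]
  have e2 : (1 - 1 / ((H : ℝ) + 1)) * (1 - 1 / (g : ℝ)) * ((((H : ℝ) + 1) * g) / (((H : ℝ) + 1) * g - 1)) =
      (((1 - 1 / ((H : ℝ) + 1)) * ((H : ℝ) + 1)) * ((1 - 1 / (g : ℝ)) * g)) / (((H : ℝ) + 1) * g - 1) := by
    ring
  rw [e2]
  congr 1
  field_simp
  ring

end N417.Chg
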