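import Pool.Agent.N417.Chg.Main

open Finset Filter

namespace N417.Chg

/-- subexponential factors are eventually absorbed -/
theorem absorb (C : ℝ) (k : ℕ) (η : ℝ) (hη : 0 < η) :
    ∀ᶠ T : ℕ in atTop, C * ((T : ℝ) + 1) ^ k * Real.exp (8 * Real.sqrt (T * Real.log 4)) ≤
      (4 : ℝ) ^ (η * T) := by
  have hL : 0 < Real.log 4 := Real.log_pos (by norm_num)
  set r : ℝ := (4 : ℝ) ^ (η / 2) with hr
  have hr1 : 1 < r := Real.one_lt_rpow (by norm_num) (by positivity)
  have hlit := isLittleO_pow_const_const_pow_of_one_lt (R := ℝ) k hr1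
  set D : ℝ := (|C| + 1) * 2 ^ k * Real.exp (32 / η) with hD
  have hDpos : 0 < D := by positivity
  have hev := hlit.bound (show 0 < 1 / D by positivity)
  filter_upwards [hev, eventually_ge_atTop 1] with T hT hT1
  have hT1' : (1 : ℝ) ≤ T := by exact_mod_cast hT1
  rw [Real.norm_of_nonneg (by positivity), Real.norm_of_nonneg (by positivity)] at hT
  -- (T+1)^k ≤ 2^k T^k
  have h1 : ((T : ℝ) + 1) ^ k ≤ 2 ^ k * (T : ℝ) ^ k := by
    rw [← mul_pow]
    exact pow_le_pow_left₀ (by positivity) (by linarith) k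
  -- AM-GM
  have h2 : 8 * Real.sqrt (T * Real.log 4) ≤ 32 / η + η / 2 * T * Real.log 4 := by
    have h3 := Real.sq_sqrt (show 0 ≤ (T : ℝ) * Real.log 4 by positivity)
    set s := Real.sqrt (T * Real.log 4) with hs
    have h4 : 0 ≤ (η * s - 8) ^ 2 := sq_nonneg _
    have h5 : 16 * η * s ≤ η ^ 2 * s ^ 2 + 64 := by nlinarith
    have h6 : 8 * s * (2 * η) ≤ (32 / η + η / 2 * T * Real.log 4) * (2 * η) := by
      have : (32 / η + η / 2 * T * Real.log 4) * (2 * η) = 64 + η ^ 2 * (T * Real.log 4) := by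
        field_simp
        ring
      rw [this, ← h3]
      nlinarith
    exact le_of_mul_le_mul_right h6 (by positivity)
  have h3 : Real.exp (8 * Real.sqrt (T * Real.log 4)) ≤ Real.exp (32 / η) * r ^ T := by
    calc Real.exp (8 * Real.sqrt (T * Real.log 4))
        ≤ Real.exp (32 / η + η / 2 * T * Real.log 4) := Real.exp_le_exp.mpr h2
      _ = Real.exp (32 / η) * r ^ T := by
          rw [Real.exp_add]
          congr 1
          rw [hr, ← Real.rpow_natCast, ← Real.rpow_mul (by norm_num), Real.rpow_def_of_pos (by norm_num)]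
          congr 1
          ring
  have h4 : (4 : ℝ) ^ (η * T) = r ^ T * r ^ T := by
    rw [hr, ← Real.rpow_natCast, ← Real.rpow_mul (by norm_num), ← Real.rpow_add (by norm_num)]
    congr 1
    ring
  have hrT : 0 < r ^ T := by positivity
  have h5 : D * (T : ℝ) ^ k ≤ r ^ T := by
    have := mul_le_mul_of_nonneg_left hT hDpos.le
    rw [← mul_assoc, mul_one_div_cancel hDpos.ne', one_mul] at this
    exact this
  calc C * ((T : ℝ) + 1) ^ k * Real.exp (8 * Real.sqrt (T * Real.log 4))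
      ≤ (|C| + 1) * (2 ^ k * (T : ℝ) ^ k) * (Real.exp (32 / η) * r ^ T) := by
        refine mul_le_mul ?_ h3 (by positivity) (by positivity)
        calc C * ((T : ℝ) + 1) ^ k ≤ (|C| + 1) * ((T : ℝ) + 1) ^ k := by
              refine mul_le_mul_of_nonneg_right ?_ (by positivity)
              have := le_abs_self C
              linarith
          _ ≤ _ := mul_le_mul_of_nonneg_left h1 (by positivity)
    _ = (D * (T : ℝ) ^ k) * r ^ T := by rw [hD]; ring
    _ ≤ r ^ T * r ^ T := mul_le_mul_of_nonneg_right h5 hrT.le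
    _ = _ := h4.symm

theorem card_pos (T : ℕ) : 1 ≤ (S T).card := by
  rw [S_card]
  have h1 : rothNumberNat 1 ≤ rothNumberNat (4 ^ T / 2 + 1) := rothNumberNat.mono (Nat.le_add_left 1 _)
  have h2 : rothNumberNat 1 = 1 := by decide
  omega

theorem card_lower (T : ℕ) :
    (4 : ℝ) ^ T / 2 * Real.exp (-(4 * Real.sqrt (T * Real.log 4))) ≤ ((S T).card : ℝ) := by
  rw [S_card]
  have hb := Behrend.roth_lower_bound (N := 4 ^ T / 2 + 1)
  refine le_trans ?_ hb
  have hN : (4 : ℝ) ^ T / 2 ≤ ((4 ^ T / 2 + 1 : ℕ) : ℝ) := by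
    have h : 4 ^ T ≤ 2 * (4 ^ T / 2 + 1) := by omega
    have h' : ((4 ^ T : ℕ) : ℝ) ≤ ((2 * (4 ^ T / 2 + 1) : ℕ) : ℝ) := by exact_mod_cast h
    push_cast at h' ⊢
    linarith
  refine mul_le_mul hN ?_ (Real.exp_pos _).le (by positivity)
  apply Real.exp_le_exp.mpr
  have h1 : Real.sqrt (Real.log ((4 ^ T / 2 + 1 : ℕ) : ℝ)) ≤ Real.sqrt (T * Real.log 4) := by
    apply Real.sqrt_le_sqrt
    rw [← Real.log_pow]
    apply Real.log_le_log (by positivity)
    have h : 4 ^ T / 2 + 1 ≤ 4 ^ T := by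
      rcases Nat.eq_zero_or_pos T with rfl | hT
      · norm_num
      · have : 4 ≤ 4 ^ T := by
          calc 4 = 4 ^ 1 := by norm_num
            _ ≤ 4 ^ T := Nat.pow_le_pow_right (by norm_num) hT
        omega
    exact_mod_cast h
  linarith

end N417.Chg
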