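import Mathlib

/-!
Level inequality and weighted count for `C_h[g]` configurations (MP_d33b86_co).
-/

open Finset

namespace N417.Chg

theorem key_ineq (H g a c : ℕ) (ha : a ≤ H) (hc : c ≤ g) (hg : 1 ≤ g) :
    (((H : ℤ) + 1) * g - 1) * ((H - a) + (g - c)) ≤
      ((H : ℤ) + g - 1) * (((g : ℤ) - c) + (H * g - a * c)) + H * (g - 1) := by
  obtain ⟨s, rfl⟩ := Nat.exists_eq_add_of_le ha
  obtain ⟨r, rfl⟩ := Nat.exists_eq_add_of_le hc
  have key : (((a + s : ℕ) : ℤ) + (c + r : ℕ) - 1) *
        (((c + r : ℕ) : ℤ) - c + ((a + s : ℕ) * (c + r : ℕ) - a * c))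
        + (a + s : ℕ) * ((c + r : ℕ) - 1)
      - (((a + s : ℕ) : ℤ) + 1) * (c + r : ℕ) * (((a + s : ℕ) - a) + ((c + r : ℕ) - c))
      + (((a + s : ℕ) - a) + ((c + r : ℕ) - c))
      = r * (a + 1) * a + s * c * (c - 1) + s * r * (a + c) + a * (c - 1) := by
    push_cast
    ring
  have hpos : (0 : ℤ) ≤ r * (a + 1) * a + s * c * (c - 1) + s * r * (a + c) + a * (c - 1) := by
    rcases Nat.eq_zero_or_pos c with rfl | hc0
    · have hr : (1 : ℤ) ≤ r := by
        have : 1 ≤ r := by omega
        exact_mod_cast this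
      have ha0 : (0 : ℤ) ≤ a := by positivity
      have hs0 : (0 : ℤ) ≤ s := by positivity
      have h1 : (0 : ℤ) ≤ a * (r * (a + 1) + s * r - 1) := by
        refine mul_nonneg ha0 ?_
        nlinarith [mul_nonneg hs0 (by linarith : (0 : ℤ) ≤ r), mul_nonneg (by linarith : (0:ℤ) ≤ r) ha0]
      push_cast
      nlinarith [h1]
    · have hc1 : (0 : ℤ) ≤ (c : ℤ) - 1 := by
        have : (1 : ℤ) ≤ c := by exact_mod_cast hc0
        linarith
      positivity
  nlinarith [key, hpos]

/-- layer-cake for naturals -/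
theorem layer (z T : ℕ) (hz : z ≤ T) : (z : ℤ) = ∑ τ ∈ range T, (if τ < z then (1 : ℤ) else 0) := by
  rw [← Finset.sum_filter, Finset.sum_const, nsmul_eq_mul, mul_one]
  congr 1
  have : (range T).filter (fun τ => τ < z) = range z := by
    ext τ
    simp only [mem_filter, mem_range]
    omega
  rw [this, card_range]

theorem level_ineq (H g T : ℕ) (hg : 1 ≤ g) (v : Fin H → ℕ) (u : Fin g → ℕ)
    (hv : ∀ i, v i ≤ T) (hu : ∀ j, u j ≤ T) :
    (((H : ℤ) + 1) * g - 1) * (∑ i, (v i : ℤ) + ∑ j, (u j : ℤ)) ≤
      ((H : ℤ) + g - 1) * (∑ j, (u j : ℤ) + ∑ i, ∑ j, ((max (v i) (u j) : ℕ) : ℤ)) +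
        H * (g - 1) * T := by
  classical
  have e1 : ∑ i, (v i : ℤ) = ∑ τ ∈ range T, ((H : ℤ) - (univ.filter (fun i => v i ≤ τ)).card) := by
    calc ∑ i, (v i : ℤ) = ∑ i, ∑ τ ∈ range T, (if τ < v i then (1 : ℤ) else 0) :=
          Finset.sum_congr rfl fun i _ => layer _ _ (hv i)
      _ = ∑ τ ∈ range T, ∑ i, (if τ < v i then (1 : ℤ) else 0) := Finset.sum_comm
      _ = _ := by
          refine Finset.sum_congr rfl fun τ _ => ?_
          rw [← Finset.sum_filter, Finset.sum_const, nsmul_eq_mul, mul_one]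
          have h := Finset.card_filter_add_card_filter_not (s := (univ : Finset (Fin H)))
            (fun i => v i ≤ τ)
          rw [Finset.card_univ, Fintype.card_fin] at h
          have h2 : (univ : Finset (Fin H)).filter (fun i => ¬ v i ≤ τ) =
            univ.filter (fun i => τ < v i) := by
            ext i; simp
          rw [h2] at h
          have h' := congrArg (fun n : ℕ => (n : ℤ)) h
          push_cast at h'
          linarith
  have e2 : ∑ j, (u j : ℤ) = ∑ τ ∈ range T, ((g : ℤ) - (univ.filter (fun j => u j ≤ τ)).card) := by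
    calc ∑ i, (u i : ℤ) = ∑ i, ∑ τ ∈ range T, (if τ < u i then (1 : ℤ) else 0) :=
          Finset.sum_congr rfl fun i _ => layer _ _ (hu i)
      _ = ∑ τ ∈ range T, ∑ i, (if τ < u i then (1 : ℤ) else 0) := Finset.sum_comm
      _ = _ := by
          refine Finset.sum_congr rfl fun τ _ => ?_
          rw [← Finset.sum_filter, Finset.sum_const, nsmul_eq_mul, mul_one]
          have h := Finset.card_filter_add_card_filter_not (s := (univ : Finset (Fin g)))
            (fun i => u i ≤ τ)
          rw [Finset.card_univ, Fintype.card_fin] at h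
          have h2 : (univ : Finset (Fin g)).filter (fun i => ¬ u i ≤ τ) =
            univ.filter (fun i => τ < u i) := by
            ext i; simp
          rw [h2] at h
          have h' := congrArg (fun n : ℕ => (n : ℤ)) h
          push_cast at h'
          linarith
  have e3 : ∑ i, ∑ j, ((max (v i) (u j) : ℕ) : ℤ) =
      ∑ τ ∈ range T, ((H : ℤ) * g - (univ.filter (fun i => v i ≤ τ)).card *
        (univ.filter (fun j => u j ≤ τ)).card) := by
    calc ∑ i, ∑ j, ((max (v i) (u j) : ℕ) : ℤ)
        = ∑ p : Fin H × Fin g, ((max (v p.1) (u p.2) : ℕ) : ℤ) := by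
          rw [Fintype.sum_prod_type]
      _ = ∑ p : Fin H × Fin g, ∑ τ ∈ range T, (if τ < max (v p.1) (u p.2) then (1 : ℤ) else 0) :=
          Finset.sum_congr rfl fun p _ => layer _ _ (max_le (hv _) (hu _))
      _ = ∑ τ ∈ range T, ∑ p : Fin H × Fin g, (if τ < max (v p.1) (u p.2) then (1 : ℤ) else 0) :=
          Finset.sum_comm
      _ = _ := by
          refine Finset.sum_congr rfl fun τ _ => ?_
          rw [← Finset.sum_filter, Finset.sum_const, nsmul_eq_mul, mul_one]
          have h := Finset.card_filter_add_card_filter_not (s := (univ : Finset (Fin H × Fin g)))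
            (fun p => v p.1 ≤ τ ∧ u p.2 ≤ τ)
          rw [Finset.card_univ, Fintype.card_prod, Fintype.card_fin, Fintype.card_fin] at h
          have h2 : (univ : Finset (Fin H × Fin g)).filter (fun p => ¬ (v p.1 ≤ τ ∧ u p.2 ≤ τ)) =
            univ.filter (fun p => τ < max (v p.1) (u p.2)) := by
            ext p
            simp only [mem_filter, mem_univ, true_and, lt_max_iff]
            omega
          have h3 : (univ : Finset (Fin H × Fin g)).filter (fun p => v p.1 ≤ τ ∧ u p.2 ≤ τ) =
            (univ.filter (fun i => v i ≤ τ)) ×ˢ (univ.filter (fun j => u j ≤ τ)) := by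
            ext p
            simp
          rw [h2, h3, card_product] at h
          have h' := congrArg (fun n : ℕ => (n : ℤ)) h
          push_cast at h'
          linarith
  rw [e3, e1, e2, ← Finset.sum_add_distrib, ← Finset.sum_add_distrib, Finset.mul_sum,
    Finset.mul_sum]
  have e4 : ((H : ℤ) * (g - 1) * T) = ∑ τ ∈ range T, ((H : ℤ) * (g - 1)) := by
    rw [Finset.sum_const, card_range, nsmul_eq_mul]
    ring
  rw [e4, ← Finset.sum_add_distrib]
  refine Finset.sum_le_sum fun τ _ => ?_
  have ha : (univ.filter (fun i => v i ≤ τ)).card ≤ H := by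
    calc _ ≤ (univ : Finset (Fin H)).card := Finset.card_filter_le _ _
      _ = H := by simp
  have hc : (univ.filter (fun j => u j ≤ τ)).card ≤ g := by
    calc _ ≤ (univ : Finset (Fin g)).card := Finset.card_filter_le _ _
      _ = g := by simp
  exact key_ineq H g _ _ ha hc hg

end N417.Chg
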