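import Pool.Agent.N417.Chg.Conf

open Finset

namespace N417.Chg

variable {H g : ℕ}

/-- the selected set -/
def Aset (Q : ℕ → ℕ) (ω : ∀ i : ℕ × ℕ, Fin (Q i.1 + 1)) : Set ℕ :=
  {a | a ∈ Sinf ∧ (ω (kap Q a).1 : ℕ) = (kap Q a).2}

/-- largest element of a configuration -/
def top (c : (Fin H → ℕ) × (Fin g → ℕ)) : ℕ := univ.sup (el c)

theorem top_spec (hg : 2 ≤ g) (c : (Fin H → ℕ) × (Fin g → ℕ)) :
    (∃ p, top c = el c p) ∧ ∀ p, el c p ≤ top c := by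
  have hne : (univ : Finset (Option (Fin H) × Fin g)).Nonempty := ⟨(none, ⟨0, by omega⟩), mem_univ _⟩
  refine ⟨?_, fun p => Finset.le_sup (mem_univ p)⟩
  obtain ⟨p, -, hp⟩ := Finset.exists_mem_eq_sup univ hne (el c)
  exact ⟨p, hp⟩

theorem mem_Conf {T : ℕ} {c : (Fin H → ℕ) × (Fin g → ℕ)} : c ∈ Conf H g T ↔
    ((∀ i, c.1 i ∈ Ico 1 (4 ^ (T + 1))) ∧ (∀ j, c.2 j ∈ Ico 1 (4 ^ (T + 1)))) ∧
    (Function.Injective (el c) ∧ (∀ p, el c p ∈ Sinf ∧ Nat.log 4 (el c p) ≤ T) ∧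
      ∃ p, Nat.log 4 (el c p) = T) := by
  classical
  unfold Conf
  rw [mem_filter, mem_product, Fintype.mem_piFinset, Fintype.mem_piFinset]

theorem top_log (hg : 2 ≤ g) {T : ℕ} {c : (Fin H → ℕ) × (Fin g → ℕ)} (hc : c ∈ Conf H g T) :
    Nat.log 4 (top c) = T := by
  obtain ⟨⟨p, hp⟩, hmax⟩ := top_spec hg c
  rw [mem_Conf] at hc
  obtain ⟨-, -, hall, q, hq⟩ := hc
  apply le_antisymm
  · rw [hp]
    exact (hall p).2
  · rw [← hq]
    exact Nat.log_mono_right (hmax q)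

/-- bad configurations -/
def Bad (H g : ℕ) (Q : ℕ → ℕ) (ω : ∀ i : ℕ × ℕ, Fin (Q i.1 + 1)) (T : ℕ) :
    Set ((Fin H → ℕ) × (Fin g → ℕ)) :=
  {c | c ∈ Conf H g T ∧ ∀ p ∈ cev Q c, (ω p.1 : ℕ) = p.2}

/-- deleted elements -/
def Del (H g : ℕ) (Q : ℕ → ℕ) (ω : ∀ i : ℕ × ℕ, Fin (Q i.1 + 1)) : Set ℕ :=
  {a | ∃ T, ∃ c ∈ Bad H g Q ω T, a = top c}

theorem bad_finite (Q : ℕ → ℕ) (ω : ∀ i : ℕ × ℕ, Fin (Q i.1 + 1)) (T : ℕ) :
    (Bad H g Q ω T).Finite :=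
  (Conf H g T).finite_toSet.subset fun _ hc => hc.1

theorem del_card (hg : 2 ≤ g) (Q : ℕ → ℕ) (ω : ∀ i : ℕ × ℕ, Fin (Q i.1 + 1)) (T : ℕ) :
    {a | a ∈ Del H g Q ω ∧ Nat.log 4 a = T}.ncard ≤ (Bad H g Q ω T).ncard := by
  have hsub : {a | a ∈ Del H g Q ω ∧ Nat.log 4 a = T} ⊆ top '' (Bad H g Q ω T) := by
    rintro a ⟨⟨T', c, hc, rfl⟩, hT⟩
    rw [top_log hg hc.1] at hT
    subst hT
    exact ⟨c, hc, rfl⟩
  calc _ ≤ (top '' (Bad H g Q ω T)).ncard :=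
        Set.ncard_le_ncard hsub ((bad_finite Q ω T).image _)
    _ ≤ _ := Set.ncard_image_le (bad_finite Q ω T)

theorem block_finite (T : ℕ) (A : Set ℕ) (hA : A ⊆ Sinf) :
    {a | a ∈ A ∧ Nat.log 4 a = T}.Finite := by
  refine (S T).finite_toSet.subset ?_
  rintro a ⟨ha, rfl⟩
  exact hA ha

theorem block_card (Q : ℕ → ℕ) (ω : ∀ i : ℕ × ℕ, Fin (Q i.1 + 1)) (T : ℕ) :
    (S T).card / (Q T + 1) ≤ {a | a ∈ Aset Q ω ∧ Nat.log 4 a = T}.ncard := by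
  set m := (S T).card / (Q T + 1) with hm
  have hlt : ∀ i : Fin m, (i : ℕ) * (Q T + 1) + (ω (T, (i : ℕ)) : ℕ) < (S T).card := by
    intro i
    have h1 := i.2
    have h2 : (ω (T, (i : ℕ)) : ℕ) < Q T + 1 := (ω (T, (i : ℕ))).2
    have h3 : m * (Q T + 1) ≤ (S T).card := Nat.div_mul_le_self _ _
    calc (i : ℕ) * (Q T + 1) + (ω (T, (i : ℕ)) : ℕ) < (i : ℕ) * (Q T + 1) + (Q T + 1) := by omega
      _ = ((i : ℕ) + 1) * (Q T + 1) := by ring
      _ ≤ m * (Q T + 1) := Nat.mul_le_mul_right _ (by omega)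
      _ ≤ _ := h3
  choose F hF1 hF2 using fun i : Fin m => exists_rk T _ (hlt i)
  have hdiv : ∀ i : Fin m, rk (F i) / (Q T + 1) = i := by
    intro i
    rw [hF2]
    have h2 : (ω (T, (i : ℕ)) : ℕ) < Q T + 1 := (ω (T, (i : ℕ))).2
    rw [mul_comm, Nat.mul_add_div (by omega), Nat.div_eq_of_lt h2, add_zero]
  have hmod : ∀ i : Fin m, rk (F i) % (Q T + 1) = (ω (T, (i : ℕ)) : ℕ) := by
    intro i
    rw [hF2]
    have h2 : (ω (T, (i : ℕ)) : ℕ) < Q T + 1 := (ω (T, (i : ℕ))).2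
    rw [mul_comm, Nat.mul_add_mod, Nat.mod_eq_of_lt h2]
  have hinj : Function.Injective F := by
    intro i j hij
    have := hdiv i
    rw [hij, hdiv j] at this
    exact Fin.ext this.symm
  have hsub : Set.range F ⊆ {a | a ∈ Aset Q ω ∧ Nat.log 4 a = T} := by
    rintro _ ⟨i, rfl⟩
    have hlog := S_log (hF1 i)
    refine ⟨⟨mem_Sinf_of_mem (hF1 i), ?_⟩, hlog⟩
    unfold kap
    simp only
    rw [hlog, hmod i]
    have key : ∀ (x y : ℕ × ℕ) (hxy : x = y), (ω x : ℕ) = (ω y : ℕ) := by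
      rintro x y rfl
      rfl
    exact key _ _ (by rw [hdiv i])
  have hcard : (Set.range F).ncard = m := by
    rw [← Set.image_univ, Set.ncard_image_of_injective _ hinj, Set.ncard_univ, Nat.card_eq_fintype_card,
      Fintype.card_fin]
  rw [← hcard]
  exact Set.ncard_le_ncard hsub (block_finite T _ fun a ha => ha.1)

/-- the final set -/
def Afin (H g : ℕ) (Q : ℕ → ℕ) (ω : ∀ i : ℕ × ℕ, Fin (Q i.1 + 1)) : Set ℕ :=
  Aset Q ω \ Del H g Q ω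

theorem Afin_block (hg : 2 ≤ g) (Q : ℕ → ℕ) (ω : ∀ i : ℕ × ℕ, Fin (Q i.1 + 1)) (T : ℕ) :
    (S T).card / (Q T + 1) ≤ {a | a ∈ Afin H g Q ω ∧ Nat.log 4 a = T}.ncard +
      (Bad H g Q ω T).ncard := by
  have h1 := block_card Q ω T
  have h2 := del_card (H := H) hg Q ω T
  have hsub : {a | a ∈ Aset Q ω ∧ Nat.log 4 a = T} ⊆
      {a | a ∈ Afin H g Q ω ∧ Nat.log 4 a = T} ∪ {a | a ∈ Del H g Q ω ∧ Nat.log 4 a = T} := by
    rintro a ⟨ha, hT⟩
    by_cases hd : a ∈ Del H g Q ω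
    · exact Or.inr ⟨hd, hT⟩
    · exact Or.inl ⟨⟨ha, hd⟩, hT⟩
  have hfin1 : {a | a ∈ Afin H g Q ω ∧ Nat.log 4 a = T}.Finite :=
    block_finite T _ fun a ha => ha.1.1
  have hfin2 : {a | a ∈ Del H g Q ω ∧ Nat.log 4 a = T}.Finite := by
    refine ((bad_finite (H := H) (g := g) Q ω T).image top).subset ?_
    rintro a ⟨⟨T', c, hc, rfl⟩, hT⟩
    rw [top_log hg hc.1] at hT
    subst hT
    exact ⟨c, hc, rfl⟩
  have h3 := Set.ncard_le_ncard hsub (hfin1.union hfin2)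
  have h4 := Set.ncard_union_le {a | a ∈ Afin H g Q ω ∧ Nat.log 4 a = T}
    {a | a ∈ Del H g Q ω ∧ Nat.log 4 a = T}
  omega

theorem el_inj {A : Set ℕ} (hA : A ⊆ Sinf) (d : Fin H → ℕ) (hd1 : ∀ i, 1 ≤ d i)
    (hd : Function.Injective d) (y : Fin g → ℕ) (hy : Function.Injective y)
    (hel : ∀ p, el (d, y) p ∈ A) : Function.Injective (el (d, y)) := by
  -- offsets
  set D : Option (Fin H) → ℕ := fun o => match o with
    | none => 0
    | some i => d i with hD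
  have hDinj : Function.Injective D := by
    rintro (_ | i) (_ | j) hij
    · rfl
    · have := hd1 j
      simp only [hD] at hij
      omega
    · have := hd1 i
      simp only [hD] at hij
      omega
    · simp only [hD] at hij
      rw [hd hij]
  have hel' : ∀ o j, el (d, y) (o, j) = y j + D o := fun o j => rfl
  have key : ∀ o o' j j', D o < D o' → y j + D o = y j' + D o' → False := by
    intro o o' j j' hlt heq
    have h1 := hA (hel (o, j'))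
    have h2 := hA (hel (o, j))
    have h3 := hA (hel (o', j))
    rw [hel'] at h1 h2 h3
    have := Sinf_free h1 h2 h3 (by omega)
    omega
  rintro ⟨o, j⟩ ⟨o', j'⟩ h
  rw [hel', hel'] at h
  rcases lt_trichotomy (D o) (D o') with hlt | heq | hlt
  · exact (key o o' j j' hlt h).elim
  · have ho := hDinj heq
    subst ho
    have : y j = y j' := by omega
    rw [hy this]
  · exact (key o' o j' j hlt h.symm).elim

theorem Afin_noconf (hg : 2 ≤ g) (Q : ℕ → ℕ) (ω : ∀ i : ℕ × ℕ, Fin (Q i.1 + 1))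
    (d : Fin H → ℕ) (hd1 : ∀ i, 1 ≤ d i) (hd : Function.Injective d) (y : Fin g → ℕ)
    (hy : Function.Injective y) : ¬ ∀ p, el (d, y) p ∈ Afin H g Q ω := by
  intro hel
  have hinj := el_inj (A := Afin H g Q ω) (fun a ha => ha.1.1) d hd1 hd y hy hel
  obtain ⟨⟨p, hp⟩, hmax⟩ := top_spec hg (d, y)
  set T := Nat.log 4 (top (d, y)) with hT
  have hlt : ∀ p, el (d, y) p < 4 ^ (T + 1) := by
    intro p
    refine lt_of_le_of_lt (hmax p) ?_
    exact Nat.lt_pow_succ_log_self (by norm_num) _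
  have hconf : (d, y) ∈ Conf H g T := by
    rw [mem_Conf]
    refine ⟨⟨?_, ?_⟩, hinj, ?_, ?_⟩
    · intro i
      rw [mem_Ico]
      refine ⟨hd1 i, ?_⟩
      have := hlt (some i, ⟨0, by omega⟩)
      simp only [el] at this
      show d i < 4 ^ (T + 1)
      omega
    · intro j
      rw [mem_Ico]
      have h1 := hlt (none, j)
      have h2 := Sinf_pos (hel (none, j)).1.1
      simp only [el] at h1 h2
      simp only
      omega
    · intro p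
      exact ⟨(hel p).1.1, Nat.log_mono_right (hmax p)⟩
    · exact ⟨p, by rw [← hp]⟩
  have hbad : (d, y) ∈ Bad H g Q ω T := by
    refine ⟨hconf, ?_⟩
    intro q hq
    unfold cev at hq
    rw [mem_image] at hq
    obtain ⟨a, ha, rfl⟩ := hq
    rw [mem_image] at ha
    obtain ⟨p', -, rfl⟩ := ha
    exact (hel p').1.2
  have : el (d, y) p ∈ Del H g Q ω := ⟨T, (d, y), hbad, hp.symm⟩
  exact (hel p).2 this

/-- **Main combinatorial statement.** -/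
theorem exists_set (hH : 1 ≤ H) (hg : 2 ≤ g) (Q : ℕ → ℕ) (w : ℕ → ℝ) (hw : ∀ t, 1 ≤ w t)
    (hQ : ∀ t, 1 / ((Q t : ℝ) + 1) ≤ wt H g t / w t) (δ : ℕ → ℝ) (hδ0 : ∀ T, 0 ≤ δ T)
    (hδs : Summable δ) (hδ : ∑' T, δ T < 1)
    (hmain : ∀ T, (1 / w T) ^ 2 * ((4 : ℝ) ^ (alpha H g * T) * (3 * (T + 1)) ^ (H + g)) ≤
      δ T * ((((S T).card / (Q T + 1) : ℕ) + 1 : ℝ) / 4)) :
    ∃ A : Set ℕ, A ⊆ Sinf ∧
      (∀ (d : Fin H → ℕ), (∀ i, 1 ≤ d i) → Function.Injective d → ∀ y : Fin g → ℕ,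
        Function.Injective y → ¬ ∀ p, el (d, y) p ∈ A) ∧
      ∀ T, (((S T).card / (Q T + 1) : ℕ) : ℝ) / 2 ≤ ({a | a ∈ A ∧ Nat.log 4 a = T}.ncard : ℝ) := by
  obtain ⟨ω, hω⟩ := selection (ι := ℕ × ℕ) (C := (Fin H → ℕ) × (Fin g → ℕ)) (fun i => Q i.1)
    (fun T => Conf H g T) (fun c => cev Q c)
    (fun T => (((S T).card / (Q T + 1) : ℕ) + 1 : ℝ) / 4) δ (fun T => by positivity) hδ0 hδs hδ
    (fun T => (conf_weight hH hg Q w hw hQ T).trans (hmain T))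
  refine ⟨Afin H g Q ω, fun a ha => ha.1.1, ?_, ?_⟩
  · intro d hd1 hd y hy
    exact Afin_noconf hg Q ω d hd1 hd y hy
  · intro T
    have h1 := Afin_block (H := H) hg Q ω T
    have h2 : ((Bad H g Q ω T).ncard : ℝ) < (((S T).card / (Q T + 1) : ℕ) + 1 : ℝ) / 4 := hω T
    set m := (S T).card / (Q T + 1) with hm
    rcases Nat.eq_zero_or_pos m with h0 | hpos
    · rw [h0]
      simp
    · have h3 : (1 : ℝ) ≤ m := by exact_mod_cast hpos
      have h4 : (m : ℝ) ≤ ({a | a ∈ Afin H g Q ω ∧ Nat.log 4 a = T}.ncard : ℝ) +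
          ((Bad H g Q ω T).ncard : ℝ) := by exact_mod_cast h1
      linarith

end N417.Chg
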