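import Pool.Agent.N417.Chg.Ineq

open Finset

namespace N417.Chg

/-- the selection exponent -/
noncomputable def beta (H g : ℕ) : ℝ := ((H : ℝ) + g - 1) / (((H : ℝ) + 1) * g - 1)

/-- the density exponent -/
noncomputable def alpha (H g : ℕ) : ℝ := ((H : ℝ) * (g - 1)) / (((H : ℝ) + 1) * g - 1)

theorem den_pos (H g : ℕ) (hH : 1 ≤ H) (hg : 2 ≤ g) : (0 : ℝ) < ((H : ℝ) + 1) * g - 1 := by
  have h1 : (1 : ℝ) ≤ H := by exact_mod_cast hH
  have h2 : (2 : ℝ) ≤ g := by exact_mod_cast hg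
  nlinarith

theorem alpha_add_beta (H g : ℕ) (hH : 1 ≤ H) (hg : 2 ≤ g) : alpha H g + beta H g = 1 := by
  have := den_pos H g hH hg
  unfold alpha beta
  rw [← add_div, div_eq_one_iff_eq this.ne']
  ring

theorem beta_nonneg (H g : ℕ) (hH : 1 ≤ H) (hg : 2 ≤ g) : 0 ≤ beta H g := by
  have := den_pos H g hH hg
  have h1 : (1 : ℝ) ≤ H := by exact_mod_cast hH
  have h2 : (2 : ℝ) ≤ g := by exact_mod_cast hg
  unfold beta
  apply div_nonneg _ this.le
  linarith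

theorem alpha_pos (H g : ℕ) (hH : 1 ≤ H) (hg : 2 ≤ g) : 0 < alpha H g := by
  have := den_pos H g hH hg
  have h1 : (1 : ℝ) ≤ H := by exact_mod_cast hH
  have h2 : (2 : ℝ) ≤ g := by exact_mod_cast hg
  unfold alpha
  apply div_pos _ this
  nlinarith

/-- weight of an element at level `n` -/
noncomputable def wt (H g n : ℕ) : ℝ := (4 : ℝ) ^ (-(beta H g * n))

theorem wt_pos (H g n : ℕ) : 0 < wt H g n := by unfold wt; positivity

theorem wt_anti (H g : ℕ) (hH : 1 ≤ H) (hg : 2 ≤ g) {m n : ℕ} (h : m ≤ n) :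
    wt H g n ≤ wt H g m := by
  unfold wt
  apply Real.rpow_le_rpow_of_exponent_le (by norm_num)
  have h1 := beta_nonneg H g hH hg
  have h2 : (m : ℝ) ≤ n := by exact_mod_cast h
  nlinarith

theorem pointwise (H g T : ℕ) (hH : 1 ≤ H) (hg : 2 ≤ g) (v : Fin H → ℕ) (u : Fin g → ℕ)
    (hv : ∀ i, v i ≤ T) (hu : ∀ j, u j ≤ T) :
    (∏ j, wt H g (u j)) * ∏ i, ∏ j, wt H g (max (v i) (u j)) ≤
      (4 : ℝ) ^ (alpha H g * T) * ((∏ i, (1 / 4 : ℝ) ^ (v i)) * ∏ j, (1 / 4 : ℝ) ^ (u j)) := by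
  have hD := den_pos H g hH hg
  have key := level_ineq H g T (by omega) v u hv hu
  have key' : (((H : ℝ) + 1) * g - 1) * (∑ i, (v i : ℝ) + ∑ j, (u j : ℝ)) ≤
      ((H : ℝ) + g - 1) * (∑ j, (u j : ℝ) + ∑ i, ∑ j, ((max (v i) (u j) : ℕ) : ℝ)) +
        H * (g - 1) * T := by exact_mod_cast key
  set V : ℝ := ∑ i, (v i : ℝ) with hV
  set U : ℝ := ∑ j, (u j : ℝ) with hU
  set E : ℝ := ∑ j, (u j : ℝ) + ∑ i, ∑ j, ((max (v i) (u j) : ℕ) : ℝ) with hE
  have hl : (∏ j, wt H g (u j)) * ∏ i, ∏ j, wt H g (max (v i) (u j)) =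
      (4 : ℝ) ^ (-(beta H g * E)) := by
    unfold wt
    rw [← Real.rpow_sum_of_pos (by norm_num)]
    have : ∀ i, ∏ j, (4 : ℝ) ^ (-(beta H g * ((max (v i) (u j) : ℕ) : ℝ))) =
        (4 : ℝ) ^ (∑ j, -(beta H g * ((max (v i) (u j) : ℕ) : ℝ))) := by
      intro i
      rw [← Real.rpow_sum_of_pos (by norm_num)]
    rw [Finset.prod_congr rfl fun i _ => this i, ← Real.rpow_sum_of_pos (by norm_num),
      ← Real.rpow_add (by norm_num)]
    congr 1
    rw [hE]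
    simp only [Finset.sum_neg_distrib, ← Finset.mul_sum]
    ring
  have hr : (∏ i, (1 / 4 : ℝ) ^ (v i)) * ∏ j, (1 / 4 : ℝ) ^ (u j) = (4 : ℝ) ^ (-(V + U)) := by
    have e : ∀ n : ℕ, (1 / 4 : ℝ) ^ n = (4 : ℝ) ^ (-(n : ℝ)) := by
      intro n
      rw [Real.rpow_neg (by norm_num), Real.rpow_natCast, one_div, inv_pow]
    simp only [e]
    rw [← Real.rpow_sum_of_pos (by norm_num), ← Real.rpow_sum_of_pos (by norm_num),
      ← Real.rpow_add (by norm_num)]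
    congr 1
    rw [hV, hU]
    simp only [Finset.sum_neg_distrib]
    ring
  rw [hl, hr, ← Real.rpow_add (by norm_num)]
  apply Real.rpow_le_rpow_of_exponent_le (by norm_num)
  have hb : beta H g * (((H : ℝ) + 1) * g - 1) = (H : ℝ) + g - 1 := by
    unfold beta
    exact div_mul_cancel₀ _ hD.ne'
  have ha : alpha H g * (((H : ℝ) + 1) * g - 1) = (H : ℝ) * (g - 1) := by
    unfold alpha
    exact div_mul_cancel₀ _ hD.ne'
  have : (((H : ℝ) + 1) * g - 1) * (-(beta H g * E)) ≤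
      (((H : ℝ) + 1) * g - 1) * (alpha H g * T + -(V + U)) := by
    have h1 : (((H : ℝ) + 1) * g - 1) * (-(beta H g * E)) = -(((H : ℝ) + g - 1) * E) := by
      rw [← hb]; ring
    have h2 : (((H : ℝ) + 1) * g - 1) * (alpha H g * T + -(V + U)) =
        (H : ℝ) * (g - 1) * T - (((H : ℝ) + 1) * g - 1) * (V + U) := by
      rw [← ha]; ring
    rw [h1, h2]
    linarith
  exact le_of_mul_le_mul_left this hD

theorem single_sum (n : ℕ) :
    ∑ x ∈ Ico 1 (4 ^ n), (1 / 4 : ℝ) ^ (Nat.log 4 x) = 3 * n := by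
  induction n with
  | zero => simp
  | succ n ih =>
    have h1 : (1 : ℕ) ≤ 4 ^ n := Nat.one_le_pow _ _ (by norm_num)
    have h2 : (4 : ℕ) ^ n ≤ 4 ^ (n + 1) := Nat.pow_le_pow_right (by norm_num) (by omega)
    rw [← Finset.sum_Ico_consecutive _ h1 h2, ih]
    have h3 : ∀ x ∈ Ico (4 ^ n) (4 ^ (n + 1)), (1 / 4 : ℝ) ^ (Nat.log 4 x) = (1 / 4 : ℝ) ^ n := by
      intro x hx
      rw [mem_Ico] at hx
      have : Nat.log 4 x = n := by
        rw [Nat.log_eq_iff (Or.inr ⟨by norm_num, by omega⟩)]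
        exact hx
      rw [this]
    rw [Finset.sum_congr rfl h3, Finset.sum_const, Nat.card_Ico, nsmul_eq_mul]
    have h4 : ((4 ^ (n + 1) - 4 ^ n : ℕ) : ℝ) = 3 * 4 ^ n := by
      rw [Nat.cast_sub h2]
      push_cast
      ring
    rw [h4, one_div, inv_pow]
    have : (4 : ℝ) ^ n ≠ 0 := by positivity
    field_simp
    push_cast
    ring

theorem sum_bound (H g T : ℕ) (hH : 1 ≤ H) (hg : 2 ≤ g) :
    ∑ d ∈ Fintype.piFinset (fun _ : Fin H => Ico 1 (4 ^ (T + 1))),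
      ∑ y ∈ Fintype.piFinset (fun _ : Fin g => Ico 1 (4 ^ (T + 1))),
        ((∏ j, wt H g (Nat.log 4 (y j))) *
          ∏ i, ∏ j, wt H g (max (Nat.log 4 (d i)) (Nat.log 4 (y j)))) ≤
      (4 : ℝ) ^ (alpha H g * T) * (3 * (T + 1)) ^ (H + g) := by
  have hlog : ∀ x ∈ Ico 1 (4 ^ (T + 1)), Nat.log 4 x ≤ T := by
    intro x hx
    rw [mem_Ico] at hx
    have := Nat.log_lt_of_lt_pow (by omega) hx.2
    omega
  calc _ ≤ ∑ d ∈ Fintype.piFinset (fun _ : Fin H => Ico 1 (4 ^ (T + 1))),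
      ∑ y ∈ Fintype.piFinset (fun _ : Fin g => Ico 1 (4 ^ (T + 1))),
        ((4 : ℝ) ^ (alpha H g * T) * ((∏ i, (1 / 4 : ℝ) ^ (Nat.log 4 (d i))) *
          ∏ j, (1 / 4 : ℝ) ^ (Nat.log 4 (y j)))) := by
        refine Finset.sum_le_sum fun d hd => Finset.sum_le_sum fun y hy => ?_
        rw [Fintype.mem_piFinset] at hd hy
        exact pointwise H g T hH hg _ _ (fun i => hlog _ (hd i)) (fun j => hlog _ (hy j))
    _ = (4 : ℝ) ^ (alpha H g * T) *
        ((∑ d ∈ Fintype.piFinset (fun _ : Fin H => Ico 1 (4 ^ (T + 1))),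
          ∏ i, (1 / 4 : ℝ) ^ (Nat.log 4 (d i))) *
        (∑ y ∈ Fintype.piFinset (fun _ : Fin g => Ico 1 (4 ^ (T + 1))),
          ∏ j, (1 / 4 : ℝ) ^ (Nat.log 4 (y j)))) := by
        rw [Finset.sum_mul_sum, Finset.mul_sum]
        refine Finset.sum_congr rfl fun d _ => ?_
        rw [Finset.mul_sum]
    _ = (4 : ℝ) ^ (alpha H g * T) * (3 * (T + 1)) ^ (H + g) := by
        congr 1
        have e : ∀ k : ℕ, ∑ d ∈ Fintype.piFinset (fun _ : Fin k => Ico 1 (4 ^ (T + 1))),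
          ∏ i, (1 / 4 : ℝ) ^ (Nat.log 4 (d i)) = (3 * (T + 1)) ^ k := by
          intro k
          rw [← Finset.prod_univ_sum (fun _ : Fin k => Ico 1 (4 ^ (T + 1)))
            (fun _ x => (1 / 4 : ℝ) ^ (Nat.log 4 x))]
          rw [Finset.prod_const, Finset.card_univ, Fintype.card_fin, single_sum]
          push_cast
          ring
        rw [e, e, ← pow_add]

end N417.Chg
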